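import Mathlib
import Pool.Agent.Helper549.Kneser

/-! Three functions `α, β, γ : P → H` on a finite abelian group with `α x + β y = γ (x + y)` for many
pairs: the majority values of the differences, and the bound from Kneser's theorem. -/

set_option autoImplicit false
set_option linter.unusedSectionVars false

namespace Pool.Agent.U295.Cay

open Finset
open scoped Pointwise

section pairs

variable {X V : Type*} [Fintype X] [DecidableEq X] [DecidableEq V]

/-- the number of pairs with equal values -/
theorem eq_pairs_le (f g : X → V) (v : V) :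
    ((univ.filter fun c : X × X => f c.1 = g c.2).card : ℤ) ≤
      ((univ.filter fun x => f x = v).card : ℤ) * (univ.filter fun y => g y = v).card +
      (Fintype.card X - (univ.filter fun x => f x = v).card) *
        (Fintype.card X - (univ.filter fun y => g y = v).card) := by
  classical
  have h1 : (univ.filter fun c : X × X => f c.1 = g c.2) ⊆
      ((univ.filter fun x => f x = v) ×ˢ (univ.filter fun y => g y = v)) ∪
      ((univ.filter fun x => ¬ f x = v) ×ˢ (univ.filter fun y => ¬ g y = v)) := by
    intro c hc
    simp only [mem_filter, mem_univ, true_and] at hc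
    simp only [mem_union, mem_product, mem_filter, mem_univ, true_and]
    by_cases h : f c.1 = v
    · left
      exact ⟨h, by rw [← hc, h]⟩
    · right
      exact ⟨h, by rw [← hc]; exact h⟩
  have h2 := (card_le_card h1).trans (card_union_le _ _)
  rw [card_product, card_product] at h2
  have e1 : ((univ.filter fun x => ¬ f x = v).card : ℤ) =
      Fintype.card X - (univ.filter fun x => f x = v).card := by
    have := card_filter_add_card_filter_not (s := (univ : Finset X)) (fun x => f x = v)
    rw [card_univ] at this
    omega
  have e2 : ((univ.filter fun x => ¬ g x = v).card : ℤ) =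
      Fintype.card X - (univ.filter fun x => g x = v).card := by
    have := card_filter_add_card_filter_not (s := (univ : Finset X)) (fun x => g x = v)
    rw [card_univ] at this
    omega
  rw [← e1, ← e2]
  exact_mod_cast h2

theorem eq_pairs_sum (f g : X → V) :
    (univ.filter fun c : X × X => f c.1 = g c.2).card =
      ∑ y, (univ.filter fun x => f x = g y).card := by
  classical
  rw [card_eq_sum_card_fiberwise (f := Prod.snd) (t := univ) (fun _ _ => by simp)]
  refine sum_congr rfl fun y _ => ?_
  refine card_bij (fun c _ => c.1) ?_ ?_ ?_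
  · intro c hc
    simp only [mem_filter, mem_univ, true_and] at hc ⊢
    rw [hc.1, hc.2]
  · intro c hc d hd h
    simp only [mem_filter, mem_univ, true_and] at hc hd
    exact Prod.ext h (hc.2.trans hd.2.symm)
  · intro x hx
    simp only [mem_filter, mem_univ, true_and] at hx
    exact ⟨(x, y), by simpa using hx, rfl⟩

/-- If more than half of the pairs have equal values, there is a common majority value. -/
theorem exists_maj (f g : X → V)
    (h : Fintype.card X ^ 2 < 2 * (univ.filter fun c : X × X => f c.1 = g c.2).card) :
    ∃ v, Fintype.card X < 2 * (univ.filter fun x => f x = v).card ∧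
      Fintype.card X < 2 * (univ.filter fun y => g y = v).card := by
  classical
  have h1 : ∃ v, Fintype.card X < 2 * (univ.filter fun x => f x = v).card := by
    by_contra hc
    push Not at hc
    rw [eq_pairs_sum] at h
    have : 2 * ∑ y : X, (univ.filter fun x => f x = g y).card ≤
        Fintype.card X ^ 2 := by
      rw [mul_sum]
      calc ∑ y : X, 2 * (univ.filter fun x => f x = g y).card
          ≤ ∑ _y : X, Fintype.card X := sum_le_sum fun y _ => hc (g y)
        _ = _ := by rw [sum_const, card_univ, smul_eq_mul, sq]
    omega
  obtain ⟨v, hv⟩ := h1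
  refine ⟨v, hv, ?_⟩
  by_contra hc
  push Not at hc
  have h2 := eq_pairs_le f g v
  have h3 : ((Fintype.card X : ℤ)) ^ 2 <
      2 * (univ.filter fun c : X × X => f c.1 = g c.2).card := by exact_mod_cast h
  have h4 : (Fintype.card X : ℤ) < 2 * (univ.filter fun x => f x = v).card := by exact_mod_cast hv
  have h5 : 2 * ((univ.filter fun y => g y = v).card : ℤ) ≤ Fintype.card X := by exact_mod_cast hc
  nlinarith [mul_nonneg (sub_nonneg.2 h4.le) (sub_nonneg.2 h5)]

end pairs

variable {P H : Type*} [AddCommGroup P] [Fintype P] [DecidableEq P] [AddCommGroup H] [DecidableEq H]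

/-- The pairs with `α x + β y ≠ γ (x + y)`. -/
def bad (α β γ : P → H) : Finset (P × P) :=
  univ.filter fun c => α c.1 + β c.2 ≠ γ (c.1 + c.2)

/-- The number of `x` with difference `v` in direction `a`. -/
def dc (α : P → H) (a : P) (v : H) : ℕ := (univ.filter fun x : P => α (x + a) - α x = v).card

theorem diff_pairs (α β γ : P → H) (a : P) :
    Fintype.card P ^ 2 ≤ (univ.filter fun c : P × P =>
      α (c.1 + a) - α c.1 = β (c.2 + a) - β c.2).card + 2 * (bad α β γ).card := by
  classical
  have h1 : (univ : Finset (P × P)) ⊆ (univ.filter fun c : P × P =>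
      α (c.1 + a) - α c.1 = β (c.2 + a) - β c.2) ∪
      ((bad α β γ).image (fun c => (c.1 - a, c.2)) ∪ (bad α β γ).image (fun c => (c.1, c.2 - a))) := by
    intro c _
    simp only [mem_union, mem_filter, mem_univ, true_and, mem_image, bad]
    by_cases hA : α (c.1 + a) + β c.2 = γ (c.1 + a + c.2)
    · by_cases hB : α c.1 + β (c.2 + a) = γ (c.1 + (c.2 + a))
      · left
        have : c.1 + a + c.2 = c.1 + (c.2 + a) := by abel
        rw [this, ← hB] at hA
        rw [sub_eq_sub_iff_add_eq_add, hA]
        abel
      · right; right
        exact ⟨(c.1, c.2 + a), hB, by simp⟩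
    · right; left
      exact ⟨(c.1 + a, c.2), hA, by simp⟩
  have h2 := (card_le_card h1).trans (card_union_le _ _)
  have h3 := card_union_le ((bad α β γ).image (fun c => (c.1 - a, c.2)))
    ((bad α β γ).image (fun c => (c.1, c.2 - a)))
  have h4 : ((bad α β γ).image (fun c => (c.1 - a, c.2))).card ≤ (bad α β γ).card := card_image_le
  have h5 : ((bad α β γ).image (fun c => (c.1, c.2 - a))).card ≤ (bad α β γ).card := card_image_le
  rw [card_univ, Fintype.card_prod, ← sq] at h2
  omega

/-- The majority differences. -/
theorem exists_phi (α β γ : P → H) (hB : 4 * (bad α β γ).card < Fintype.card P ^ 2) :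
    ∃ φ : P → H, ∀ a, Fintype.card P < 2 * dc α a (φ a) ∧ Fintype.card P < 2 * dc β a (φ a) ∧
      (Fintype.card P : ℤ) ^ 2 - 4 * (bad α β γ).card ≤
        (2 * dc α a (φ a) - Fintype.card P) * (2 * dc β a (φ a) - Fintype.card P) := by
  have h : ∀ a, ∃ v, Fintype.card P < 2 * dc α a v ∧ Fintype.card P < 2 * dc β a v := by
    intro a
    have h1 := diff_pairs α β γ a
    exact exists_maj (fun x => α (x + a) - α x) (fun y => β (y + a) - β y) (by
      show Fintype.card P ^ 2 < 2 * (univ.filter fun c : P × P =>
        α (c.1 + a) - α c.1 = β (c.2 + a) - β c.2).card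
      omega)
  choose φ hφ using h
  refine ⟨φ, fun a => ⟨(hφ a).1, (hφ a).2, ?_⟩⟩
  have h1 := diff_pairs α β γ a
  have h2 := eq_pairs_le (fun x => α (x + a) - α x) (fun y => β (y + a) - β y) (φ a)
  have h3 : (Fintype.card P : ℤ) ^ 2 ≤ ((univ.filter fun c : P × P =>
      α (c.1 + a) - α c.1 = β (c.2 + a) - β c.2).card : ℤ) + 2 * (bad α β γ).card := by
    exact_mod_cast h1
  unfold dc
  nlinarith [h2, h3]

theorem dc_add_le (α : P → H) (a : P) {v w : H} (h : v ≠ w) :
    dc α a v + dc α a w ≤ Fintype.card P := by
  classical
  unfold dc
  rw [← card_union_of_disjoint]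
  · exact card_le_univ _
  · rw [disjoint_left]
    intro x hx hy
    simp only [mem_filter, mem_univ, true_and] at hx hy
    exact h (hx.symm.trans hy)

theorem phi_zero {α : P → H} {φ : P → H} (h : ∀ a, Fintype.card P < 2 * dc α a (φ a)) : φ 0 = 0 := by
  by_contra hc
  have h1 := h 0
  have : dc α 0 (φ 0) = 0 := by
    unfold dc
    rw [card_eq_zero, filter_eq_empty_iff]
    intro x _
    simp only [add_zero, sub_self]
    exact fun h => hc h.symm
  omega

/-- The number of bad pairs with sum `z`. -/
def dz (α β γ : P → H) (z : P) : ℕ := (univ.filter fun x : P => α x + β (z - x) ≠ γ z).card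

theorem sum_dz (α β γ : P → H) : ∑ z, dz α β γ z = (bad α β γ).card := by
  classical
  rw [card_eq_sum_card_fiberwise (f := fun c => c.1 + c.2) (t := univ) (fun _ _ => by simp)]
  refine sum_congr rfl fun z _ => ?_
  unfold dz bad
  refine card_bij (fun x _ => (x, z - x)) ?_ ?_ ?_
  · intro x hx
    simp only [mem_filter, mem_univ, true_and] at hx ⊢
    simpa using hx
  · intro x _ y _ h
    exact (Prod.ext_iff.1 h).1
  · rintro ⟨x, y⟩ hc
    simp only [mem_filter, mem_univ, true_and] at hc
    obtain ⟨h1, rfl⟩ := hc
    exact ⟨x, by simpa using h1, by simp⟩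

theorem dc_ge_dz (α β γ : P → H) (z z' : P) :
    Fintype.card P ≤ dc α (z - z') (γ z - γ z') + dz α β γ z + dz α β γ z' := by
  classical
  have h1 : (univ : Finset P) ⊆ (univ.filter fun x : P => α (x + (z - z')) - α x = γ z - γ z') ∪
      ((univ.filter fun x : P => α x + β (z - x) ≠ γ z).image (fun x => x - (z - z')) ∪
      (univ.filter fun x : P => α x + β (z' - x) ≠ γ z')) := by
    intro x _
    simp only [mem_union, mem_filter, mem_univ, true_and, mem_image]
    by_cases hA : α (x + (z - z')) + β (z - (x + (z - z'))) = γ z
    · by_cases hB : α x + β (z' - x) = γ z'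
      · left
        have : z - (x + (z - z')) = z' - x := by abel
        rw [this] at hA
        rw [← hA, ← hB]
        abel
      · right; right; exact hB
    · right; left
      exact ⟨x + (z - z'), hA, by abel⟩
  have h2 := (card_le_card h1).trans (card_union_le _ _)
  have h3 := card_union_le ((univ.filter fun x : P => α x + β (z - x) ≠ γ z).image
    (fun x => x - (z - z'))) (univ.filter fun x : P => α x + β (z' - x) ≠ γ z')
  have h4 : ((univ.filter fun x : P => α x + β (z - x) ≠ γ z).image (fun x => x - (z - z'))).card ≤
      _ := card_image_le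
  rw [card_univ] at h2
  unfold dc dz
  omega

theorem dc_ge_dz' (α β γ : P → H) (z z' : P) :
    Fintype.card P ≤ dc β (z - z') (γ z - γ z') + dz α β γ z + dz α β γ z' := by
  classical
  have h1 : (univ : Finset P) ⊆ (univ.filter fun x : P => β (x + (z - z')) - β x = γ z - γ z').image
      (fun y => z' - y) ∪
      ((univ.filter fun x : P => α x + β (z - x) ≠ γ z) ∪
      (univ.filter fun x : P => α x + β (z' - x) ≠ γ z')) := by
    intro x _
    simp only [mem_union, mem_filter, mem_univ, true_and, mem_image]
    by_cases hA : α x + β (z - x) = γ z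
    · by_cases hB : α x + β (z' - x) = γ z'
      · left
        refine ⟨z' - x, ?_, by abel⟩
        have : z' - x + (z - z') = z - x := by abel
        rw [this, ← hA, ← hB]
        abel
      · right; right; exact hB
    · right; left
      exact hA
  have h2 := (card_le_card h1).trans (card_union_le _ _)
  have h3 := card_union_le (univ.filter fun x : P => α x + β (z - x) ≠ γ z)
    (univ.filter fun x : P => α x + β (z' - x) ≠ γ z')
  have h4 : ((univ.filter fun x : P => β (x + (z - z')) - β x = γ z - γ z').image
      (fun y => z' - y)).card ≤ _ := card_image_le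
  rw [card_univ] at h2
  unfold dc dz
  omega

end Pool.Agent.U295.Cay
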