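import Mathlib
import Pool.Agent.Helper549.Kneser
import Pool.Agent.U295.Cay.Maj

/-! The bound for `p`-groups from Kneser's theorem. -/

set_option autoImplicit false
set_option linter.unusedSectionVars false

namespace Pool.Agent.U295.Cay

open Finset
open scoped Pointwise
open Pool.Agent.Helper549.Kneser

variable {P H : Type*} [AddCommGroup P] [Fintype P] [DecidableEq P] [AddCommGroup H] [DecidableEq H]

/-- Counting: the sum of a function from the sizes of the level sets. -/
theorem sum_ge_levels {X : Type*} [Fintype X] [DecidableEq X] (D : X → ℕ) (L : ℕ) :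
    Fintype.card X * L ≤ ∑ z, D z + ∑ s ∈ range L, (univ.filter fun z => D z ≤ s).card := by
  classical
  have h : ∀ z, L ≤ D z + ∑ s ∈ range L, if D z ≤ s then 1 else 0 := by
    intro z
    rw [← card_filter]
    have : ((range L).filter fun s => D z ≤ s) = Ico (D z) L := by
      ext s
      simp only [mem_filter, mem_range, mem_Ico]
      tauto
    rw [this, Nat.card_Ico]
    omega
  calc Fintype.card X * L = ∑ _z : X, L := by rw [sum_const, card_univ, smul_eq_mul]
    _ ≤ ∑ z, (D z + ∑ s ∈ range L, if D z ≤ s then 1 else 0) := sum_le_sum fun z _ => h z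
    _ = _ := by
      rw [sum_add_distrib, sum_comm]
      congr 1
      refine sum_congr rfl fun s _ => ?_
      rw [card_filter]

theorem levels_bound {X : Type*} [Fintype X] [DecidableEq X] (D : X → ℕ) (L p : ℕ)
    (h : ∀ s t, s + t + 1 = L → p * ((univ.filter fun z => D z ≤ s).card +
      (univ.filter fun z => D z ≤ t).card) ≤ (p + 1) * Fintype.card X) :
    2 * p * (Fintype.card X * L) ≤ 2 * p * ∑ z, D z + (p + 1) * Fintype.card X * L := by
  classical
  have h1 := sum_ge_levels D L
  set c : ℕ → ℕ := fun s => (univ.filter fun z => D z ≤ s).card with hc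
  have h2 : ∑ s ∈ range L, c (L - 1 - s) = ∑ s ∈ range L, c s := sum_range_reflect c L
  have h3 : p * (∑ s ∈ range L, c s + ∑ s ∈ range L, c (L - 1 - s)) ≤
      (p + 1) * Fintype.card X * L := by
    rw [← sum_add_distrib, mul_sum]
    calc ∑ s ∈ range L, p * (c s + c (L - 1 - s)) ≤
        ∑ _s ∈ range L, (p + 1) * Fintype.card X := by
          refine sum_le_sum fun s hs => h s (L - 1 - s) ?_
          rw [mem_range] at hs
          omega
      _ = _ := by rw [sum_const, card_range, smul_eq_mul]; ring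
  rw [h2] at h3
  have h1' : Fintype.card X * L ≤ ∑ z, D z + ∑ s ∈ range L, c s := h1
  nlinarith [Nat.mul_le_mul_left (2 * p) h1']

theorem graph_kneser [Fintype H] (φ γ : P → H) (hφ0 : φ 0 = 0) (X Y : Finset P)
    (h : ∀ z ∈ X, ∀ z' ∈ Y, γ z - γ z' = φ (z - z')) :
    (∀ a b, φ (a + b) = φ a + φ b) ∨ X.card + Y.card ≤ Fintype.card P ∨
      ∃ d, d ∣ Fintype.card P ∧ d < Fintype.card P ∧ X.card + Y.card ≤ Fintype.card P + d := by
  classical
  rcases X.eq_empty_or_nonempty with rfl | hX
  · right; left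
    simpa using card_le_univ Y
  rcases Y.eq_empty_or_nonempty with rfl | hY
  · right; left
    simpa using card_le_univ X
  set X' : Finset (P × H) := X.image fun z => (z, γ z) with hX'
  set Y' : Finset (P × H) := Y.image fun z => (-z, - γ z) with hY'
  have hcX : X'.card = X.card := card_image_of_injective _ fun a b hab => (Prod.ext_iff.1 hab).1
  have hcY : Y'.card = Y.card :=
    card_image_of_injective _ fun a b hab => neg_injective (Prod.ext_iff.1 hab).1
  have hT : ∀ t ∈ X' + Y', t.2 = φ t.1 := by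
    intro t ht
    obtain ⟨a, ha, b, hb, rfl⟩ := mem_add.1 ht
    rw [hX', mem_image] at ha
    rw [hY', mem_image] at hb
    obtain ⟨z, hz, rfl⟩ := ha
    obtain ⟨z', hz', rfl⟩ := hb
    have := h z hz z' hz'
    simp only [Prod.snd_add, Prod.fst_add]
    rw [← sub_eq_add_neg, ← sub_eq_add_neg, this]
  have hinjT : Set.InjOn Prod.fst (↑(X' + Y') : Set (P × H)) := by
    intro s hs t ht hst
    exact Prod.ext hst (by rw [hT s hs, hT t ht, hst])
  have hTcard : (X' + Y').card ≤ Fintype.card P := by
    rw [← card_image_of_injOn hinjT]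
    exact card_le_univ _
  have hkn := kneser X' Y' (hX.image _) (hY.image _)
  set S := stab (X' + Y') with hS
  obtain ⟨t0, ht0⟩ : (X' + Y').Nonempty := (hX.image _).add (hY.image _)
  have hinjS : Function.Injective ((AddMonoidHom.fst P H).comp S.subtype) := by
    rw [injective_iff_map_eq_zero]
    intro s hs
    have h1 : t0 + (s : P × H) ∈ X' + Y' := stab_add s.2 ht0
    have h2 : t0 + (s : P × H) = t0 := hinjT h1 ht0 (by
      have : (s : P × H).1 = 0 := hs
      simp [this])
    exact Subtype.ext (by simpa using h2)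
  have hcS : Nat.card S = (fs S).card := by
    rw [← SetLike.coe_sort_coe, Nat.card_coe_set_eq, ← Set.ncard_coe_finset]
    congr 1
    ext x
    simp [mem_fs]
  have hdvd : (fs S).card ∣ Fintype.card P := by
    have h1 : Nat.card S = Nat.card ((AddMonoidHom.fst P H).comp S.subtype).range :=
      Nat.card_congr (AddMonoidHom.ofInjective hinjS).toEquiv
    rw [← hcS, h1, ← Nat.card_eq_fintype_card]
    exact AddSubgroup.card_addSubgroup_dvd_card _
  rcases (Nat.le_of_dvd Fintype.card_pos hdvd).lt_or_eq with hlt | heq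
  · right; right
    exact ⟨(fs S).card, hdvd, hlt, by omega⟩
  · left
    -- the stabiliser is the whole graph
    have hsub : (fs S).image (fun s => t0 + s) ⊆ X' + Y' := by
      intro x hx
      rw [mem_image] at hx
      obtain ⟨s, hs, rfl⟩ := hx
      exact stab_add (mem_fs.1 hs) ht0
    have hG : ∀ a, (a, φ a) ∈ (fs S).image (fun s => t0 + s) := by
      intro a
      have h1 : ((fs S).image (fun s => t0 + s)).image Prod.fst = univ := by
        apply eq_univ_of_card
        rw [card_image_of_injOn (hinjT.mono (by exact_mod_cast hsub)),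
          card_image_of_injective _ (add_right_injective t0), heq]
      have h2 : a ∈ ((fs S).image (fun s => t0 + s)).image Prod.fst := by rw [h1]; exact mem_univ a
      rw [mem_image] at h2
      obtain ⟨t, ht, rfl⟩ := h2
      rwa [← hT t (hsub ht)]
    have hmem : ∀ a, ((a, φ a) : P × H) ∈ S := by
      have h0 := hG 0
      rw [hφ0, mem_image] at h0
      obtain ⟨s0, hs0, hs0'⟩ := h0
      have ht0S : t0 ∈ S := by
        have : t0 = - s0 := by
          rw [eq_neg_iff_add_eq_zero]
          exact hs0'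
        rw [this]
        exact S.neg_mem (mem_fs.1 hs0)
      intro a
      have ha := hG a
      rw [mem_image] at ha
      obtain ⟨s, hs, hs'⟩ := ha
      rw [← hs']
      exact S.add_mem ht0S (mem_fs.1 hs)
    intro a b
    have h1 : ((a, φ a) : P × H) + (b, φ b) - (a + b, φ (a + b)) ∈ S :=
      S.sub_mem (S.add_mem (hmem a) (hmem b)) (hmem _)
    have h2 : (⟨_, h1⟩ : S) = 0 := by
      apply hinjS
      simp
    have h3 := congrArg (fun s : S => (s : P × H).2) h2
    simp only [Prod.mk_add_mk, Prod.mk_sub_mk] at h3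
    have h4 : φ a + φ b - φ (a + b) = 0 := h3
    exact (sub_eq_zero.1 h4).symm

/-- **The bound for `p`-groups.** -/
theorem pgroup_bound [Fintype H] {p k : ℕ} (hp : p.Prime) (hP : Fintype.card P = p ^ k)
    (α β γ : P → H) (hα : Function.Injective α)
    (hB : 4 * p ^ 2 * (bad α β γ).card < Fintype.card P ^ 2 * (p ^ 2 - 1)) :
    ∃ ψ : P →+ H, Function.Injective ψ := by
  classical
  set n := Fintype.card P with hn
  have hnpos : 0 < n := Fintype.card_pos
  have hp2 : 2 ≤ p := hp.two_le
  set B := (bad α β γ).card with hBdef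
  have hp1 : 1 ≤ p ^ 2 := Nat.one_le_pow _ _ (by omega)
  have hBz : (4 : ℤ) * p ^ 2 * B < n ^ 2 * (p ^ 2 - 1) := by
    have : ((4 * p ^ 2 * B : ℕ) : ℤ) < ((n ^ 2 * (p ^ 2 - 1) : ℕ) : ℤ) := by exact_mod_cast hB
    push_cast [Nat.cast_sub hp1] at this
    exact this
  have hB4 : 4 * B < n ^ 2 := by
    have h1 : (p ^ 2 : ℤ) * (4 * B) < p ^ 2 * n ^ 2 := by nlinarith [sq_nonneg (n : ℤ)]
    have h2 : (4 * B : ℤ) < n ^ 2 := lt_of_mul_lt_mul_left h1 (by positivity)
    exact_mod_cast h2
  obtain ⟨φ, hφ⟩ := exists_phi α β γ hB4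
  have hφ0 : φ 0 = 0 := phi_zero fun a => (hφ a).1
  -- it is enough that `φ` is additive
  suffices hadd : ∀ a b, φ (a + b) = φ a + φ b by
    refine ⟨AddMonoidHom.mk' φ hadd, ?_⟩
    rw [injective_iff_map_eq_zero]
    intro a ha
    have ha' : φ a = 0 := ha
    by_contra hne
    have h1 := (hφ a).1
    rw [ha'] at h1
    have h2 : dc α a 0 = 0 := by
      unfold dc
      rw [card_eq_zero, filter_eq_empty_iff]
      intro x _ hx
      rw [sub_eq_zero] at hx
      have := hα hx
      exact hne (by simpa using this)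
    omega
  by_contra hadd
  -- the minimum of the advantages
  obtain ⟨a0, -, ha0⟩ := exists_min_image (univ : Finset P)
    (fun a => dc α a (φ a) + dc β a (φ a)) ⟨0, mem_univ 0⟩
  set W : ℤ := 2 * (dc α a0 (φ a0) + dc β a0 (φ a0) : ℕ) - 2 * n with hW
  have hWpos : 0 < W := by
    have h1 := (hφ a0).1
    have h2 := (hφ a0).2.1
    rw [hW]; push_cast; omega
  have hWsq : 4 * (n : ℤ) ^ 2 - 16 * B ≤ W ^ 2 := by
    have h3 := (hφ a0).2.2
    have : W = (2 * dc α a0 (φ a0) - n) + (2 * dc β a0 (φ a0) - n) := by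
      rw [hW]; push_cast; ring
    rw [this]
    nlinarith [sq_nonneg (((2 : ℤ) * dc α a0 (φ a0) - n) - (2 * dc β a0 (φ a0) - n))]
  have hpair : ∀ z z', γ z - γ z' ≠ φ (z - z') →
      2 * (n : ℤ) + W ≤ 4 * (dz α β γ z + dz α β γ z' : ℕ) := by
    intro z z' hne
    have h1 := dc_ge_dz α β γ z z'
    have h2 := dc_ge_dz' α β γ z z'
    have h3 := dc_add_le α (z - z') hne
    have h4 := dc_add_le β (z - z') hne
    have h5 := ha0 (z - z') (mem_univ _)
    rw [hW]
    push_cast
    omega
  obtain ⟨L, hL1, hL2⟩ : ∃ L : ℕ, 2 * (n : ℤ) + W ≤ 4 * L ∧ ∀ z z', γ z - γ z' ≠ φ (z - z') →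
      L ≤ dz α β γ z + dz α β γ z' := by
    refine ⟨((2 * (n : ℤ) + W + 3) / 4).toNat, ?_, ?_⟩
    · omega
    · intro z z' hne
      have := hpair z z' hne
      omega
  have hlev := levels_bound (dz α β γ) L p (by
    intro s t hst
    rcases graph_kneser φ γ hφ0 (univ.filter fun z => dz α β γ z ≤ s)
        (univ.filter fun z => dz α β γ z ≤ t) (by
        intro z hz z' hz'
        simp only [mem_filter, mem_univ, true_and] at hz hz'
        by_contra hne
        have := hL2 z z' hne
        omega) with h1 | h1 | ⟨d, hd1, hd2, hd3⟩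
    · exact absurd h1 hadd
    · calc p * _ ≤ p * Fintype.card P := Nat.mul_le_mul_left p h1
        _ ≤ _ := Nat.mul_le_mul_right _ (Nat.le_succ p)
    · have hpd : p * d ≤ n := by
        rw [← hn, hP] at hd1
        obtain ⟨j, hj, rfl⟩ := (Nat.dvd_prime_pow hp).1 hd1
        rw [← hn, hP] at hd2
        have hjk : j < k := (Nat.pow_lt_pow_iff_right (by omega)).1 hd2
        rw [hP, ← pow_succ']
        exact Nat.pow_le_pow_right (by omega) hjk
      calc p * _ ≤ p * (Fintype.card P + d) := Nat.mul_le_mul_left p hd3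
        _ = p * n + p * d := by rw [mul_add]
        _ ≤ p * n + n := by omega
        _ = _ := by ring)
  rw [sum_dz] at hlev
  have hlevz : (2 : ℤ) * p * (n * L) ≤ 2 * p * B + (p + 1) * n * L := by exact_mod_cast hlev
  -- `2 p B ≥ (p - 1) n L`
  have h1 : ((p : ℤ) - 1) * n * L ≤ 2 * p * B := by nlinarith
  have hpz : (2 : ℤ) ≤ p := by exact_mod_cast hp2
  have hnz : (0 : ℤ) < n := by exact_mod_cast hnpos
  have h2 : ((p : ℤ) - 1) * n * (2 * n + W) ≤ 8 * p * B := by
    have h3 : 0 ≤ ((p : ℤ) - 1) * n := by nlinarith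
    nlinarith [mul_le_mul_of_nonneg_left hL1 h3]
  -- `W p > 2 n`
  have h4 : 2 * (n : ℤ) < W * p := by
    have h5 : (2 * (n : ℤ)) ^ 2 < (W * p) ^ 2 := by
      have h6 : (4 * (n : ℤ) ^ 2 - 16 * B) * p ^ 2 ≤ W ^ 2 * p ^ 2 :=
        mul_le_mul_of_nonneg_right hWsq (by positivity)
      nlinarith
    exact lt_of_pow_lt_pow_left₀ 2 (by positivity) h5
  have h7 : 0 < ((p : ℤ) - 1) * n := by nlinarith
  nlinarith [mul_lt_mul_of_pos_left h4 h7, mul_le_mul_of_nonneg_right h2 (by positivity : (0 : ℤ) ≤ p)]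

end Pool.Agent.U295.Cay
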