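import Mathlib
import Pool.Agent.U295.Cay.Maj

/-! 2-groups: counting lemmas for three functions that are mostly affine. -/

set_option autoImplicit false
set_option linter.unusedSectionVars false

namespace Pool.Agent.U295.Cay

open Finset

variable {Q H : Type*} [AddCommGroup Q] [Fintype Q] [DecidableEq Q] [AddCommGroup H] [DecidableEq H]

/-- the number of `x` with `f x ≠ ψ x + u` -/
def nm (f : Q → H) (ψ : Q →+ H) (u : H) : ℕ := (univ.filter fun x => f x ≠ ψ x + u).card

theorem nm_le (f : Q → H) (ψ : Q →+ H) (u : H) : nm f ψ u ≤ Fintype.card Q := card_le_univ _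

/-- the indicator of non-zero elements -/
def i0 (h : H) : ℤ := if h = 0 then 0 else 1

theorem nm_eq (f : Q → H) (ψ : Q →+ H) (u : H) :
    (nm f ψ u : ℤ) = ∑ x, i0 (f x - (ψ x + u)) := by
  unfold nm i0
  rw [card_filter]
  push_cast
  refine sum_congr rfl fun x _ => ?_
  by_cases h : f x = ψ x + u
  · rw [if_neg (not_not.2 h), if_pos (sub_eq_zero.2 h)]
  · rw [if_pos h, if_neg (sub_ne_zero.2 h)]

theorem bad_eq (a b c : Q → H) (ψ : Q →+ H) (u v w : H) :
    ((bad a b c).card : ℤ) = ∑ x, ∑ y, i0 ((a x - (ψ x + u)) + (b y - (ψ y + v)) -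
      (c (x + y) - (ψ (x + y) + w)) + (u + v - w)) := by
  unfold bad i0
  rw [card_filter, ← Finset.univ_product_univ, sum_product]
  push_cast
  refine sum_congr rfl fun x _ => sum_congr rfl fun y _ => ?_
  have e : (a x - (ψ x + u)) + (b y - (ψ y + v)) -
      (c (x + y) - (ψ (x + y) + w)) + (u + v - w) = a x + b y - c (x + y) := by
    rw [map_add]
    abel
  rw [e]
  by_cases h : a x + b y = c (x + y)
  · rw [if_neg (not_not.2 h), if_pos (sub_eq_zero.2 h)]
  · rw [if_pos h, if_neg (sub_ne_zero.2 h)]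

theorem pt1 (p q r : H) :
    i0 p + i0 q + i0 r - 2 * (i0 p * i0 q + i0 q * i0 r + i0 p * i0 r) ≤ i0 (p + q - r) := by
  unfold i0
  rcases eq_or_ne p 0 with rfl | h1 <;> rcases eq_or_ne q 0 with rfl | h2 <;>
    rcases eq_or_ne r 0 with rfl | h3 <;> simp [*] <;> split_ifs <;> norm_num

theorem pt2 (p q r e : H) (he : e ≠ 0) :
    1 - (i0 p + i0 q + i0 r) ≤ i0 (p + q - r + e) := by
  unfold i0
  rcases eq_or_ne p 0 with rfl | h1 <;> rcases eq_or_ne q 0 with rfl | h2 <;>
    rcases eq_or_ne r 0 with rfl | h3 <;> simp [*] <;> split_ifs <;> norm_num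

theorem pt3a (p q r : H) : i0 p - i0 p * i0 q - i0 p * i0 r ≤ i0 (p + q - r) := by
  unfold i0
  rcases eq_or_ne p 0 with rfl | h1 <;> rcases eq_or_ne q 0 with rfl | h2 <;>
    rcases eq_or_ne r 0 with rfl | h3 <;> simp [*] <;> split_ifs <;> norm_num

theorem pt3b (p q r : H) : i0 q - i0 p * i0 q - i0 q * i0 r ≤ i0 (p + q - r) := by
  unfold i0
  rcases eq_or_ne p 0 with rfl | h1 <;> rcases eq_or_ne q 0 with rfl | h2 <;>
    rcases eq_or_ne r 0 with rfl | h3 <;> simp [*] <;> split_ifs <;> norm_num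

theorem pt3c (p q r : H) : i0 r - i0 p * i0 r - i0 q * i0 r ≤ i0 (p + q - r) := by
  unfold i0
  rcases eq_or_ne p 0 with rfl | h1 <;> rcases eq_or_ne q 0 with rfl | h2 <;>
    rcases eq_or_ne r 0 with rfl | h3 <;> simp [*] <;> split_ifs <;> norm_num

theorem sum_shift (C : Q → ℤ) (x : Q) : ∑ y, C (x + y) = ∑ y, C y :=
  Fintype.sum_equiv (Equiv.addLeft x) _ _ fun _ => rfl

theorem sum_xy (A B : Q → ℤ) : ∑ x, ∑ y, A x * B y = (∑ x, A x) * ∑ y, B y := by
  rw [sum_mul_sum]

theorem sum_xz (A C : Q → ℤ) : ∑ x, ∑ y, A x * C (x + y) = (∑ x, A x) * ∑ y, C y := by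
  rw [sum_mul_sum]
  refine sum_congr rfl fun x _ => ?_
  rw [← mul_sum, ← mul_sum, sum_shift]

theorem sum_yz (B C : Q → ℤ) : ∑ x, ∑ y, B y * C (x + y) = (∑ x, B x) * ∑ y, C y := by
  rw [sum_comm, ← sum_xz]
  refine sum_congr rfl fun x _ => sum_congr rfl fun y _ => by rw [add_comm]

theorem sum_x (A : Q → ℤ) : ∑ x, ∑ _y : Q, A x = Fintype.card Q * ∑ x, A x := by
  rw [mul_sum]
  refine sum_congr rfl fun x _ => ?_
  rw [sum_const, card_univ, nsmul_eq_mul]

theorem sum_y (B : Q → ℤ) : ∑ _x : Q, ∑ y, B y = Fintype.card Q * ∑ x, B x := by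
  rw [sum_const, card_univ, nsmul_eq_mul]

theorem sum_z (C : Q → ℤ) : ∑ x, ∑ y, C (x + y) = Fintype.card Q * ∑ x, C x := by
  rw [← sum_y C]
  exact sum_congr rfl fun x _ => sum_shift C x

theorem sum_one' : ∑ _x : Q, ∑ _y : Q, (1 : ℤ) = (Fintype.card Q : ℤ) ^ 2 := by
  simp [sq]

/-- Consistent constants. -/
theorem k1 (a b c : Q → H) (ψ : Q →+ H) (u v w : H) (hw : u + v = w) :
    (Fintype.card Q : ℤ) * (nm a ψ u + nm b ψ v + nm c ψ w) -
      2 * (nm a ψ u * nm b ψ v + nm b ψ v * nm c ψ w + nm a ψ u * nm c ψ w) ≤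
      (bad a b c).card := by
  rw [bad_eq a b c ψ u v w, nm_eq, nm_eq, nm_eq]
  generalize hA : (fun x => i0 (a x - (ψ x + u))) = A
  generalize hB : (fun x => i0 (b x - (ψ x + v))) = B
  generalize hC : (fun x => i0 (c x - (ψ x + w))) = C
  have e : ∑ x, ∑ y, (A x + B y + C (x + y) -
      (2 * A x * B y + 2 * B y * C (x + y) + 2 * A x * C (x + y))) =
      Fintype.card Q * (∑ x, A x + ∑ x, B x + ∑ x, C x) -
      2 * ((∑ x, A x) * (∑ x, B x) + (∑ x, B x) * (∑ x, C x) + (∑ x, A x) * (∑ x, C x)) := by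
    simp only [sum_sub_distrib, sum_add_distrib]
    rw [sum_xy (fun x => 2 * A x) B, sum_yz (fun x => 2 * B x) C, sum_xz (fun x => 2 * A x) C,
      sum_x, sum_y, sum_z]
    simp only [← mul_sum]
    ring
  rw [← e]
  refine sum_le_sum fun x _ => sum_le_sum fun y _ => ?_
  rw [← hA, ← hB, ← hC, sub_eq_zero.2 hw, add_zero]
  have := pt1 (a x - (ψ x + u)) (b y - (ψ y + v)) (c (x + y) - (ψ (x + y) + w))
  linarith

/-- Inconsistent constants. -/
theorem k2 (a b c : Q → H) (ψ : Q →+ H) (u v w : H) (hw : u + v ≠ w) :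
    (Fintype.card Q : ℤ) ^ 2 - Fintype.card Q * (nm a ψ u + nm b ψ v + nm c ψ w) ≤
      (bad a b c).card := by
  rw [bad_eq a b c ψ u v w, nm_eq, nm_eq, nm_eq]
  generalize hA : (fun x => i0 (a x - (ψ x + u))) = A
  generalize hB : (fun x => i0 (b x - (ψ x + v))) = B
  generalize hC : (fun x => i0 (c x - (ψ x + w))) = C
  have e : ∑ x, ∑ y, (1 - (A x + B y + C (x + y))) =
      (Fintype.card Q : ℤ) ^ 2 - Fintype.card Q * (∑ x, A x + ∑ x, B x + ∑ x, C x) := by
    simp only [sum_sub_distrib, sum_add_distrib]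
    rw [sum_one', sum_x, sum_y B, sum_z]
    ring
  rw [← e]
  refine sum_le_sum fun x _ => sum_le_sum fun y _ => ?_
  rw [← hA, ← hB, ← hC]
  exact pt2 _ _ _ _ (sub_ne_zero.2 hw)

/-- One unknown function (first). -/
theorem k3a (a b c : Q → H) (ψ : Q →+ H) (u v w : H) (hw : u + v = w) :
    (nm a ψ u : ℤ) * (Fintype.card Q - nm b ψ v - nm c ψ w) ≤ (bad a b c).card := by
  rw [bad_eq a b c ψ u v w, nm_eq, nm_eq, nm_eq]
  generalize hA : (fun x => i0 (a x - (ψ x + u))) = A
  generalize hB : (fun x => i0 (b x - (ψ x + v))) = B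
  generalize hC : (fun x => i0 (c x - (ψ x + w))) = C
  have e : ∑ x, ∑ y, (A x - A x * B y - A x * C (x + y)) =
      (∑ x, A x) * (Fintype.card Q - (∑ x, B x) - (∑ x, C x)) := by
    simp only [sum_sub_distrib]
    rw [sum_x, sum_xy, sum_xz]
    ring
  rw [← e]
  refine sum_le_sum fun x _ => sum_le_sum fun y _ => ?_
  rw [← hA, ← hB, ← hC, sub_eq_zero.2 hw, add_zero]
  exact pt3a _ _ _

/-- One unknown function (second). -/
theorem k3b (a b c : Q → H) (ψ : Q →+ H) (u v w : H) (hw : u + v = w) :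
    (nm b ψ v : ℤ) * (Fintype.card Q - nm a ψ u - nm c ψ w) ≤ (bad a b c).card := by
  rw [bad_eq a b c ψ u v w, nm_eq, nm_eq, nm_eq]
  generalize hA : (fun x => i0 (a x - (ψ x + u))) = A
  generalize hB : (fun x => i0 (b x - (ψ x + v))) = B
  generalize hC : (fun x => i0 (c x - (ψ x + w))) = C
  have e : ∑ x, ∑ y, (B y - A x * B y - B y * C (x + y)) =
      (∑ x, B x) * (Fintype.card Q - (∑ x, A x) - (∑ x, C x)) := by
    simp only [sum_sub_distrib]
    rw [sum_y, sum_xy, sum_yz]
    ring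
  rw [← e]
  refine sum_le_sum fun x _ => sum_le_sum fun y _ => ?_
  rw [← hA, ← hB, ← hC, sub_eq_zero.2 hw, add_zero]
  exact pt3b _ _ _

/-- One unknown function (third). -/
theorem k3c (a b c : Q → H) (ψ : Q →+ H) (u v w : H) (hw : u + v = w) :
    (nm c ψ w : ℤ) * (Fintype.card Q - nm a ψ u - nm b ψ v) ≤ (bad a b c).card := by
  rw [bad_eq a b c ψ u v w, nm_eq, nm_eq, nm_eq]
  generalize hA : (fun x => i0 (a x - (ψ x + u))) = A
  generalize hB : (fun x => i0 (b x - (ψ x + v))) = B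
  generalize hC : (fun x => i0 (c x - (ψ x + w))) = C
  have e : ∑ x, ∑ y, (C (x + y) - A x * C (x + y) - B y * C (x + y)) =
      (∑ x, C x) * (Fintype.card Q - (∑ x, A x) - (∑ x, B x)) := by
    simp only [sum_sub_distrib]
    rw [sum_z, sum_xz, sum_yz]
    ring
  rw [← e]
  refine sum_le_sum fun x _ => sum_le_sum fun y _ => ?_
  rw [← hA, ← hB, ← hC, sub_eq_zero.2 hw, add_zero]
  exact pt3c _ _ _

/-- The exceptional sets are bounded by the number of bad pairs. -/
theorem k1' (a b c : Q → H) (ψ : Q →+ H) (u v w : H) (hw : u + v = w)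
    (h1 : 4 * nm a ψ u < Fintype.card Q) (h2 : 4 * nm b ψ v < Fintype.card Q)
    (h3 : 4 * nm c ψ w < Fintype.card Q) :
    (Fintype.card Q : ℤ) * nm a ψ u ≤ (bad a b c).card ∧
      (Fintype.card Q : ℤ) * nm b ψ v ≤ (bad a b c).card ∧
      (Fintype.card Q : ℤ) * nm c ψ w ≤ (bad a b c).card := by
  have h := k1 a b c ψ u v w hw
  have p1 : (4 : ℤ) * nm a ψ u ≤ Fintype.card Q := by exact_mod_cast h1.le
  have q1 : (4 : ℤ) * nm b ψ v ≤ Fintype.card Q := by exact_mod_cast h2.le
  have s1 : (4 : ℤ) * nm c ψ w ≤ Fintype.card Q := by exact_mod_cast h3.le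
  have p0 : (0 : ℤ) ≤ nm a ψ u := by positivity
  have q0 : (0 : ℤ) ≤ nm b ψ v := by positivity
  have s0 : (0 : ℤ) ≤ nm c ψ w := by positivity
  generalize (nm a ψ u : ℤ) = p at *
  generalize (nm b ψ v : ℤ) = q at *
  generalize (nm c ψ w : ℤ) = s at *
  have hN0 : (0 : ℤ) ≤ Fintype.card Q := by positivity
  generalize (Fintype.card Q : ℤ) = N at *
  generalize ((bad a b c).card : ℤ) = B at *
  have e1 := mul_nonneg p0 (sub_nonneg.2 q1)
  have e2 := mul_nonneg p0 (sub_nonneg.2 s1)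
  have e3 := mul_nonneg q0 (sub_nonneg.2 p1)
  have e4 := mul_nonneg q0 (sub_nonneg.2 s1)
  have e5 := mul_nonneg s0 (sub_nonneg.2 p1)
  have e6 := mul_nonneg s0 (sub_nonneg.2 q1)
  have f1 := mul_nonneg hN0 p0
  have f2 := mul_nonneg hN0 q0
  have f3 := mul_nonneg hN0 s0
  refine ⟨?_, ?_, ?_⟩ <;> nlinarith

theorem nm_shift (f : Q → H) (ψ : Q →+ H) (w : H) (t : Q) :
    nm (fun z => f (z + t)) ψ (w + ψ t) = nm f ψ w := by
  unfold nm
  refine card_bij (fun z _ => z + t) ?_ ?_ ?_
  · intro z hz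
    simp only [mem_filter, mem_univ, true_and] at hz ⊢
    rw [map_add]
    intro h
    apply hz
    rw [h]
    abel
  · intro x _ y _ h
    exact add_right_cancel h
  · intro z hz
    simp only [mem_filter, mem_univ, true_and] at hz
    refine ⟨z - t, ?_, by abel⟩
    simp only [mem_filter, mem_univ, true_and, sub_add_cancel, map_sub]
    intro h
    apply hz
    rw [h]
    abel

theorem nm_add_card (f : Q → H) (ψ : Q →+ H) (u : H) :
    nm f ψ u + (univ.filter fun x => f x = ψ x + u).card = Fintype.card Q := by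
  have := card_filter_add_card_filter_not (s := (univ : Finset Q)) (fun x => f x = ψ x + u)
  rw [card_univ] at this
  unfold nm
  rw [add_comm]
  exact this

/-- Two sets with more than half of the elements meet. -/
theorem exists_both {X : Type*} [Fintype X] [DecidableEq X] (A B : Finset X)
    (h : Fintype.card X < A.card + B.card) : ∃ x, x ∈ A ∧ x ∈ B := by
  by_contra hc
  push Not at hc
  have : Disjoint A B := disjoint_left.2 hc
  have h2 := card_le_univ (A ∪ B)
  rw [card_union_of_disjoint this] at h2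
  omega

theorem class_unique (f : Q → H) (ψ : Q →+ H) (u v : H) (h : nm f ψ u + nm f ψ v < Fintype.card Q) :
    u = v := by
  obtain ⟨x, hx, hy⟩ := exists_both (univ.filter fun x => f x = ψ x + u)
    (univ.filter fun x => f x = ψ x + v) (by
      have h1 := nm_add_card f ψ u
      have h2 := nm_add_card f ψ v
      omega)
  simp only [mem_filter, mem_univ, true_and] at hx hy
  rw [hx] at hy
  exact add_left_cancel hy

theorem hom_unique (f : Q → H) (ψ ψ' : Q →+ H) (u u' : H) (h1 : 4 * nm f ψ u < Fintype.card Q)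
    (h2 : 4 * nm f ψ' u' < Fintype.card Q) : ψ' = ψ ∧ u' = u := by
  classical
  set E := univ.filter fun x : Q => ψ x + u = ψ' x + u' with hE
  have hEc : Fintype.card Q < 2 * E.card := by
    have h3 : (univ : Finset Q) ⊆ E ∪ ((univ.filter fun x => f x ≠ ψ x + u) ∪
        (univ.filter fun x => f x ≠ ψ' x + u')) := by
      intro x _
      simp only [mem_union, mem_filter, mem_univ, true_and, hE]
      by_cases ha : f x = ψ x + u
      · by_cases hb : f x = ψ' x + u'
        · left; rw [← ha, hb]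
        · right; right; exact hb
      · right; left; exact ha
    have h4 := (card_le_card h3).trans (card_union_le _ _)
    have h5 := card_union_le (univ.filter fun x => f x ≠ ψ x + u)
      (univ.filter fun x => f x ≠ ψ' x + u')
    rw [card_univ] at h4
    unfold nm at h1 h2
    omega
  have hψ : ψ' = ψ := by
    ext b
    obtain ⟨x, hx, hy⟩ := exists_both E (E.image fun x => x - b) (by
      rw [card_image_of_injective _ (sub_left_injective)]
      omega)
    rw [mem_image] at hy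
    obtain ⟨y, hy, rfl⟩ := hy
    simp only [hE, mem_filter, mem_univ, true_and, map_sub] at hx hy
    have : ψ' b = ψ' y + u' - (ψ' y - ψ' b + u') := by abel
    rw [this, ← hx, ← hy]
    abel
  refine ⟨hψ, ?_⟩
  subst hψ
  obtain ⟨x, hx⟩ : E.Nonempty := card_pos.1 (by omega)
  simp only [hE, mem_filter, mem_univ, true_and] at hx
  exact (add_left_cancel hx).symm

end Pool.Agent.U295.Cay
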