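import Mathlib
import Pool.Agent.U295.Cay.Two1

/-! 2-groups: from a subgroup of index two to the whole group. -/

set_option autoImplicit false
set_option linter.unusedSectionVars false

namespace Pool.Agent.U295.Cay

open Finset

variable {Q H : Type*} [AddCommGroup Q] [Fintype Q] [DecidableEq Q] [AddCommGroup H] [DecidableEq H]

theorem nm_card_prod_left (f : Q → H) (ψ : Q →+ H) (u : H) :
    ((univ.filter fun x => f x ≠ ψ x + u) ×ˢ (univ : Finset Q)).card = nm f ψ u * Fintype.card Q := by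
  rw [card_product, card_univ]
  rfl

/-- majority classes of the second and third function -/
theorem majbc (a b c : Q → H) (ψ : Q →+ H) (u : H)
    (h : 2 * (bad a b c).card + 2 * (nm a ψ u * Fintype.card Q) < Fintype.card Q ^ 2) :
    ∃ v, 2 * nm b ψ v < Fintype.card Q ∧ 2 * nm c ψ (u + v) < Fintype.card Q := by
  classical
  set E := (univ.filter fun d : Q × Q => b d.1 - ψ d.1 = c d.2 - ψ d.2 - u) with hE
  have h1 : (univ : Finset (Q × Q)) ⊆ E ∪ ((bad a b c).image (fun d => (d.2, d.1 + d.2)) ∪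
      ((univ.filter fun x => a x ≠ ψ x + u) ×ˢ (univ : Finset Q)).image
        (fun d => (d.2, d.1 + d.2))) := by
    rintro ⟨y, z⟩ _
    simp only [mem_union, mem_filter, mem_univ, true_and, mem_image, bad, hE, mem_product, and_true,
      Prod.exists, Prod.mk.injEq]
    by_cases hA : a (z - y) + b y = c (z - y + y)
    · by_cases hB : a (z - y) = ψ (z - y) + u
      · left
        rw [hB, sub_add_cancel, map_sub] at hA
        rw [← hA]
        abel
      · right; right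
        exact ⟨z - y, y, hB, rfl, by abel⟩
    · right; left
      exact ⟨z - y, y, hA, rfl, by abel⟩
  have h2 := (card_le_card h1).trans (card_union_le _ _)
  have h3 := card_union_le ((bad a b c).image (fun d => (d.2, d.1 + d.2)))
      (((univ.filter fun x => a x ≠ ψ x + u) ×ˢ (univ : Finset Q)).image
        (fun d => (d.2, d.1 + d.2)))
  have h4 : ((bad a b c).image (fun d => (d.2, d.1 + d.2))).card ≤ (bad a b c).card :=
    card_image_le
  have h5 : (((univ.filter fun x => a x ≠ ψ x + u) ×ˢ (univ : Finset Q)).image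
        (fun d => (d.2, d.1 + d.2))).card ≤ nm a ψ u * Fintype.card Q := by
    rw [← nm_card_prod_left]
    exact card_image_le
  rw [card_univ, Fintype.card_prod, ← sq] at h2
  obtain ⟨v, hv1, hv2⟩ := exists_maj (fun y => b y - ψ y) (fun z => c z - ψ z - u) (by
    show Fintype.card Q ^ 2 < 2 * E.card
    omega)
  refine ⟨v, ?_, ?_⟩
  · have h6 := nm_add_card b ψ v
    have h7 : (univ.filter fun x => b x = ψ x + v) = (univ.filter fun y => b y - ψ y = v) := by
      ext x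
      simp only [mem_filter, mem_univ, true_and]
      rw [sub_eq_iff_eq_add, add_comm]
    rw [h7] at h6
    omega
  · have h6 := nm_add_card c ψ (u + v)
    have h7 : (univ.filter fun x => c x = ψ x + (u + v)) =
        (univ.filter fun y => c y - ψ y - u = v) := by
      ext x
      simp only [mem_filter, mem_univ, true_and]
      rw [sub_eq_iff_eq_add, sub_eq_iff_eq_add]
      constructor
      · intro h; rw [h]; abel
      · intro h; rw [h]; abel
    rw [h7] at h6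
    omega

/-- majority classes of the first and third function -/
theorem majac (a b c : Q → H) (ψ : Q →+ H) (v : H)
    (h : 2 * (bad a b c).card + 2 * (nm b ψ v * Fintype.card Q) < Fintype.card Q ^ 2) :
    ∃ u, 2 * nm a ψ u < Fintype.card Q ∧ 2 * nm c ψ (u + v) < Fintype.card Q := by
  have hs : (bad b a c).card = (bad a b c).card := by
    unfold bad
    refine card_bij (fun d _ => (d.2, d.1)) ?_ ?_ ?_
    · intro d hd
      simp only [mem_filter, mem_univ, true_and] at hd ⊢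
      rwa [add_comm, add_comm d.2]
    · rintro ⟨x, y⟩ _ ⟨x', y'⟩ _ h
      simp only [Prod.mk.injEq] at h ⊢
      exact ⟨h.2, h.1⟩
    · intro d hd
      refine ⟨(d.2, d.1), ?_, rfl⟩
      simp only [mem_filter, mem_univ, true_and] at hd ⊢
      rwa [add_comm, add_comm d.2]
  obtain ⟨u, h1, h2⟩ := majbc b a c ψ v (by rw [hs]; exact h)
  exact ⟨u, h1, by rwa [add_comm]⟩

/-- majority classes of the first and second function -/
theorem majab (a b c : Q → H) (ψ : Q →+ H) (w : H)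
    (h : 2 * (bad a b c).card + 2 * (nm c ψ w * Fintype.card Q) < Fintype.card Q ^ 2) :
    ∃ u v, u + v = w ∧ 2 * nm a ψ u < Fintype.card Q ∧ 2 * nm b ψ v < Fintype.card Q := by
  classical
  set E := (univ.filter fun d : Q × Q => a d.1 - ψ d.1 = w - (b d.2 - ψ d.2)) with hE
  have h1 : (univ : Finset (Q × Q)) ⊆ E ∪ ((bad a b c) ∪
      ((univ.filter fun x => c x ≠ ψ x + w) ×ˢ (univ : Finset Q)).image
        (fun d => (d.2, d.1 - d.2))) := by
    rintro ⟨x, y⟩ _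
    simp only [mem_union, mem_filter, mem_univ, true_and, mem_image, bad, hE, mem_product, and_true,
      Prod.exists, Prod.mk.injEq]
    by_cases hA : a x + b y = c (x + y)
    · by_cases hB : c (x + y) = ψ (x + y) + w
      · left
        rw [hB, map_add] at hA
        have : a x = ψ x + ψ y + w - b y := by rw [← hA]; abel
        rw [this]
        abel
      · right; right
        exact ⟨x + y, x, hB, rfl, by abel⟩
    · right; left
      exact hA
  have h2 := (card_le_card h1).trans (card_union_le _ _)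
  have h3 := card_union_le (bad a b c)
      (((univ.filter fun x => c x ≠ ψ x + w) ×ˢ (univ : Finset Q)).image
        (fun d => (d.2, d.1 - d.2)))
  have h5 : (((univ.filter fun x => c x ≠ ψ x + w) ×ˢ (univ : Finset Q)).image
        (fun d => (d.2, d.1 - d.2))).card ≤ nm c ψ w * Fintype.card Q := by
    rw [← nm_card_prod_left]
    exact card_image_le
  rw [card_univ, Fintype.card_prod, ← sq] at h2
  obtain ⟨v, hv1, hv2⟩ := exists_maj (fun y => a y - ψ y) (fun z => w - (b z - ψ z)) (by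
    show Fintype.card Q ^ 2 < 2 * E.card
    omega)
  refine ⟨v, w - v, by abel, ?_, ?_⟩
  · have h6 := nm_add_card a ψ v
    have h7 : (univ.filter fun x => a x = ψ x + v) = (univ.filter fun y => a y - ψ y = v) := by
      ext x
      simp only [mem_filter, mem_univ, true_and]
      rw [sub_eq_iff_eq_add, add_comm]
    rw [h7] at h6
    omega
  · have h6 := nm_add_card b ψ (w - v)
    have h7 : (univ.filter fun x => b x = ψ x + (w - v)) =
        (univ.filter fun y => w - (b y - ψ y) = v) := by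
      ext x
      simp only [mem_filter, mem_univ, true_and]
      constructor
      · intro h; rw [h]; abel
      · intro h; rw [← h]; abel
    rw [h7] at h6
    omega

/-! ### numbers -/

theorem numA {N p q s X Y Z W : ℤ} (h1 : N * p ≤ X) (h2 : N * q ≤ Y) (h3 : N * s ≤ Z)
    (h4 : N ^ 2 - N * (p + q + s) ≤ W) : N ^ 2 ≤ X + Y + Z + W := by
  nlinarith

theorem numB {N q0 s0 q1 s1 E E' X Y Z W : ℤ} (hE0 : 0 ≤ E) (hEN : E ≤ N)
    (hEE : N ≤ E + E') (h1 : N * q0 ≤ X) (h2 : N * s0 ≤ X) (h3 : N * q1 ≤ Y) (h4 : N * s1 ≤ Y)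
    (h5 : 4 * q1 < N) (h6 : 4 * s0 < N)
    (h7 : E * (N - q0 - s1) ≤ Z) (h8 : E' * (N - q1 - s0) ≤ W) : N ^ 2 ≤ X + Y + Z + W := by
  have hN : 0 ≤ N := hE0.trans hEN
  have h9 : (N - E) * (N - q1 - s0) ≤ W := by
    refine le_trans (mul_le_mul_of_nonneg_right (by linarith) (by linarith)) h8
  obtain ⟨M0, hM0, hM0q, hM0s⟩ : ∃ M, N * M ≤ X ∧ q0 ≤ M ∧ s0 ≤ M := by
    rcases le_total q0 s0 with h | h
    · exact ⟨s0, h2, h, le_refl _⟩
    · exact ⟨q0, h1, le_refl _, h⟩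
  obtain ⟨M1, hM1, hM1q, hM1s⟩ : ∃ M, N * M ≤ Y ∧ q1 ≤ M ∧ s1 ≤ M := by
    rcases le_total q1 s1 with h | h
    · exact ⟨s1, h4, h, le_refl _⟩
    · exact ⟨q1, h3, le_refl _, h⟩
  have e1 : E * (q0 + s1) ≤ E * (M0 + M1) := mul_le_mul_of_nonneg_left (by linarith) hE0
  have e2 : (N - E) * (q1 + s0) ≤ (N - E) * (M0 + M1) :=
    mul_le_mul_of_nonneg_left (by linarith) (by linarith)
  nlinarith

theorem numP2 {N P Q S : ℤ} (hQ0 : 0 ≤ Q) (hS0 : 0 ≤ S) (hQ : 2 * Q < N) (hS : 2 * S < N)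
    (h : 2 * N * (P + Q + S) - 2 * (P * Q + Q * S + P * S) < N ^ 2) : 2 * P < N := by
  by_contra hc
  push Not at hc
  have e1 : N * (2 * N - 2 * Q - 2 * S) ≤ 2 * P * (2 * N - 2 * Q - 2 * S) :=
    mul_le_mul_of_nonneg_right hc (by linarith)
  have e2 : 0 ≤ Q * (N - 2 * S) := mul_nonneg hQ0 (by linarith)
  have e3 : 0 ≤ S * (N - 2 * Q) := mul_nonneg hS0 (by linarith)
  nlinarith

theorem numP3 {N P Q S : ℤ} (hQ0 : 0 ≤ Q) (hS0 : 0 ≤ S) (hP : 4 * P < 3 * N) (hQ : 4 * Q < 3 * N)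
    (hS : 4 * S < 3 * N)
    (h : 2 * N * (P + Q + S) - 2 * (P * Q + Q * S + P * S) < N ^ 2) : 2 * P < N := by
  by_contra hc
  push Not at hc
  have hN : 0 < N := by linarith
  rcases le_total (Q + S) N with h1 | h1
  · -- `f = 2P(N - Q - S) + 2N(Q+S) - 2QS`
    have e1 : N * (N - Q - S) ≤ 2 * P * (N - Q - S) :=
      mul_le_mul_of_nonneg_right hc (by linarith)
    have e2 : 0 ≤ Q * (N - S) := mul_nonneg hQ0 (by linarith)
    have e3 : 0 ≤ S * (N - Q) := mul_nonneg hS0 (by linarith)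
    nlinarith
  · have e1 : 3 * N * (N - Q - S) ≤ 4 * P * (N - Q - S) := by nlinarith
    have e2 : 0 ≤ (3 * N - 4 * Q) * (3 * N - 4 * S) := mul_nonneg (by linarith) (by linarith)
    have e3 : 0 ≤ Q * (3 * N - 4 * S) := mul_nonneg hQ0 (by linarith)
    have e4 : 0 ≤ S * (3 * N - 4 * Q) := mul_nonneg hS0 (by linarith)
    have e5 : 0 ≤ Q * S := mul_nonneg hQ0 hS0
    nlinarith

theorem class_card (f : Q → H) (ψ : Q →+ H) {u v : H} (h : u ≠ v) :
    (Fintype.card Q : ℤ) ≤ nm f ψ u + nm f ψ v := by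
  by_contra hc
  push Not at hc
  exact h (class_unique f ψ u v (by exact_mod_cast hc))

/-- The property proved by induction. -/
def Good2 (Q H : Type*) [AddCommGroup Q] [Fintype Q] [DecidableEq Q] [AddCommGroup H]
    [DecidableEq H] : Prop :=
  ∀ a b c : Q → H, 4 * (bad a b c).card < Fintype.card Q ^ 2 →
    ∃ (ψ : Q →+ H) (u v w : H), u + v = w ∧ 4 * nm a ψ u < Fintype.card Q ∧
      4 * nm b ψ v < Fintype.card Q ∧ 4 * nm c ψ w < Fintype.card Q

section core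

variable (a0 a1 b0 b1 c0 c1 : Q → H) (t : Q)

theorem tot (ψ : Q →+ H) (u0 u1 v0 v1 w0 w1 : H) (h00 : u0 + v0 = w0) (h01 : u0 + v1 = w1)
    (h10 : u1 + v0 = w1) (h11 : u1 + v1 = w0 + ψ t) :
    2 * (Fintype.card Q : ℤ) * ((nm a0 ψ u0 + nm a1 ψ u1) + (nm b0 ψ v0 + nm b1 ψ v1) +
      (nm c0 ψ w0 + nm c1 ψ w1)) -
      2 * ((nm a0 ψ u0 + nm a1 ψ u1) * (nm b0 ψ v0 + nm b1 ψ v1) +
        (nm b0 ψ v0 + nm b1 ψ v1) * (nm c0 ψ w0 + nm c1 ψ w1) +
        (nm a0 ψ u0 + nm a1 ψ u1) * (nm c0 ψ w0 + nm c1 ψ w1)) ≤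
      (bad a0 b0 c0).card + (bad a0 b1 c1).card + (bad a1 b0 c1).card +
        (bad a1 b1 fun z => c0 (z + t)).card := by
  have e1 := k1 a0 b0 c0 ψ u0 v0 w0 h00
  have e2 := k1 a0 b1 c1 ψ u0 v1 w1 h01
  have e3 := k1 a1 b0 c1 ψ u1 v0 w1 h10
  have e4 := k1 a1 b1 (fun z => c0 (z + t)) ψ u1 v1 (w0 + ψ t) h11
  rw [nm_shift] at e4
  nlinarith

/-- The structure obtained on the two cosets. -/
def Res : Prop :=
  ∃ (ψ : Q →+ H) (u0 u1 v0 v1 w0 w1 : H), u0 + v0 = w0 ∧ u0 + v1 = w1 ∧ u1 + v0 = w1 ∧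
    u1 + v1 = w0 + ψ t ∧ 2 * (nm a0 ψ u0 + nm a1 ψ u1) < Fintype.card Q ∧
    2 * (nm b0 ψ v0 + nm b1 ψ v1) < Fintype.card Q ∧
    2 * (nm c0 ψ w0 + nm c1 ψ w1) < Fintype.card Q

/-- from the relations and three small pairs -/
theorem res_of (ψ : Q →+ H) (u0 u1 v0 v1 w0 w1 : H) (h00 : u0 + v0 = w0) (h01 : u0 + v1 = w1)
    (h10 : u1 + v0 = w1) (h11 : u1 + v1 = w0 + ψ t)
    (hsum : ((bad a0 b0 c0).card : ℤ) + (bad a0 b1 c1).card + (bad a1 b0 c1).card +
        (bad a1 b1 fun z => c0 (z + t)).card < (Fintype.card Q : ℤ) ^ 2)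
    (hcase : (2 * ((nm a0 ψ u0 : ℤ) + nm a1 ψ u1) < Fintype.card Q ∧
        2 * ((nm b0 ψ v0 : ℤ) + nm b1 ψ v1) < Fintype.card Q) ∨
      (2 * ((nm a0 ψ u0 : ℤ) + nm a1 ψ u1) < Fintype.card Q ∧
        2 * ((nm c0 ψ w0 : ℤ) + nm c1 ψ w1) < Fintype.card Q) ∨
      (2 * ((nm b0 ψ v0 : ℤ) + nm b1 ψ v1) < Fintype.card Q ∧
        2 * ((nm c0 ψ w0 : ℤ) + nm c1 ψ w1) < Fintype.card Q) ∨
      (4 * ((nm a0 ψ u0 : ℤ) + nm a1 ψ u1) < 3 * Fintype.card Q ∧
        4 * ((nm b0 ψ v0 : ℤ) + nm b1 ψ v1) < 3 * Fintype.card Q ∧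
        4 * ((nm c0 ψ w0 : ℤ) + nm c1 ψ w1) < 3 * Fintype.card Q)) :
    Res a0 a1 b0 b1 c0 c1 t := by
  have h := (tot a0 a1 b0 b1 c0 c1 t ψ u0 u1 v0 v1 w0 w1 h00 h01 h10 h11).trans_lt hsum
  refine ⟨ψ, u0, u1, v0, v1, w0, w1, h00, h01, h10, h11, ?_⟩
  have hP0 : (0 : ℤ) ≤ (nm a0 ψ u0 : ℤ) + nm a1 ψ u1 := by positivity
  have hQ0 : (0 : ℤ) ≤ (nm b0 ψ v0 : ℤ) + nm b1 ψ v1 := by positivity
  have hS0 : (0 : ℤ) ≤ (nm c0 ψ w0 : ℤ) + nm c1 ψ w1 := by positivity
  suffices h3 : 2 * ((nm a0 ψ u0 : ℤ) + nm a1 ψ u1) < Fintype.card Q ∧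
      2 * ((nm b0 ψ v0 : ℤ) + nm b1 ψ v1) < Fintype.card Q ∧
      2 * ((nm c0 ψ w0 : ℤ) + nm c1 ψ w1) < Fintype.card Q by
    refine ⟨?_, ?_, ?_⟩
    · exact_mod_cast h3.1
    · exact_mod_cast h3.2.1
    · exact_mod_cast h3.2.2
  generalize (nm a0 ψ u0 : ℤ) + nm a1 ψ u1 = P at *
  generalize (nm b0 ψ v0 : ℤ) + nm b1 ψ v1 = R at *
  generalize (nm c0 ψ w0 : ℤ) + nm c1 ψ w1 = S at *
  rcases hcase with ⟨h1, h2⟩ | ⟨h1, h2⟩ | ⟨h1, h2⟩ | ⟨h1, h2, h3⟩
  · exact ⟨h1, h2, numP2 (P := S) (Q := P) (S := R) hP0 hQ0 h1 h2 (by linarith)⟩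
  · exact ⟨h1, numP2 (P := R) (Q := P) (S := S) hP0 hS0 h1 h2 (by linarith), h2⟩
  · exact ⟨numP2 (P := P) (Q := R) (S := S) hQ0 hS0 h1 h2 (by linarith), h1, h2⟩
  · exact ⟨numP3 (P := P) (Q := R) (S := S) hQ0 hS0 h1 h2 h3 (by linarith),
      numP3 (P := R) (Q := P) (S := S) hP0 hS0 h2 h1 h3 (by linarith),
      numP3 (P := S) (Q := P) (S := R) hP0 hQ0 h3 h1 h2 (by linarith)⟩

theorem core (hg : Good2 Q H) (h0 : 4 * (bad a0 b0 c0).card < Fintype.card Q ^ 2)
    (hsum : ((bad a0 b0 c0).card : ℤ) + (bad a0 b1 c1).card + (bad a1 b0 c1).card +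
        (bad a1 b1 fun z => c0 (z + t)).card < (Fintype.card Q : ℤ) ^ 2) :
    Res a0 a1 b0 b1 c0 c1 t := by
  obtain ⟨ψ, u0, v0, w0, h00, p0, q0, s0⟩ := hg a0 b0 c0 h0
  obtain ⟨f1, f2, f3⟩ := k1' a0 b0 c0 ψ u0 v0 w0 h00 p0 q0 s0
  have p0z : 4 * (nm a0 ψ u0 : ℤ) < Fintype.card Q := by exact_mod_cast p0
  have q0z : 4 * (nm b0 ψ v0 : ℤ) < Fintype.card Q := by exact_mod_cast q0
  have s0z : 4 * (nm c0 ψ w0 : ℤ) < Fintype.card Q := by exact_mod_cast s0
  have s0t : 4 * nm (fun z => c0 (z + t)) ψ (w0 + ψ t) < Fintype.card Q := by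
    rw [nm_shift]; exact s0
  by_cases g01 : 4 * (bad a0 b1 c1).card < Fintype.card Q ^ 2
  · obtain ⟨ψ', u0', v1, w1, h01, p0', q1, s1⟩ := hg a0 b1 c1 g01
    obtain ⟨rfl, rfl⟩ := hom_unique a0 ψ ψ' u0 u0' p0 p0'
    obtain ⟨-, f4, f5⟩ := k1' a0 b1 c1 _ _ v1 w1 h01 p0 q1 s1
    have q1z : 4 * (nm b1 ψ' v1 : ℤ) < Fintype.card Q := by exact_mod_cast q1
    have s1z : 4 * (nm c1 ψ' w1 : ℤ) < Fintype.card Q := by exact_mod_cast s1
    by_cases g10 : 4 * (bad a1 b0 c1).card < Fintype.card Q ^ 2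
    · -- (01), (10)
      obtain ⟨ψ'', u1, v0', w1', h10, p1, q0', s1'⟩ := hg a1 b0 c1 g10
      obtain ⟨rfl, rfl⟩ := hom_unique b0 ψ' ψ'' v0 v0' q0 q0'
      obtain ⟨-, rfl⟩ := hom_unique c1 _ _ w1 w1' s1 s1'
      obtain ⟨f6, -, -⟩ := k1' a1 b0 c1 _ u1 _ _ h10 p1 q0 s1
      have p1z : 4 * (nm a1 ψ'' u1 : ℤ) < Fintype.card Q := by exact_mod_cast p1
      by_cases h11 : u1 + v1 = w0 + ψ'' t
      · exact res_of a0 a1 b0 b1 c0 c1 t ψ'' _ u1 _ v1 w0 _ h00 h01 h10 h11 hsum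
          (Or.inl ⟨by linarith, by linarith⟩)
      · exfalso
        have e := k2 a1 b1 (fun z => c0 (z + t)) ψ'' u1 v1 (w0 + ψ'' t) h11
        rw [nm_shift] at e
        have := numA f6 f4 f3 e
        linarith
    · by_cases g11 : 4 * (bad a1 b1 fun z => c0 (z + t)).card < Fintype.card Q ^ 2
      · -- (01), (11)
        obtain ⟨ψ'', u1, v1', w0', h11, p1, q1', s0'⟩ := hg a1 b1 _ g11
        obtain ⟨rfl, rfl⟩ := hom_unique b1 ψ' ψ'' v1 v1' q1 q1'
        obtain ⟨-, rfl⟩ := hom_unique _ _ _ _ w0' s0t s0'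
        obtain ⟨f6, -, -⟩ := k1' a1 b1 _ _ u1 _ _ h11 p1 q1 s0t
        have p1z : 4 * (nm a1 ψ'' u1 : ℤ) < Fintype.card Q := by exact_mod_cast p1
        by_cases h10 : u1 + v0 = w1
        · exact res_of a0 a1 b0 b1 c0 c1 t ψ'' _ u1 _ _ w0 _ h00 h01 h10 h11 hsum
            (Or.inl ⟨by linarith, by linarith⟩)
        · exfalso
          have e := k2 a1 b0 c1 ψ'' u1 v0 w1 h10
          have := numA f6 f2 f5 e
          linarith
      · -- only (01)
        by_cases hc : w1 - v0 = w0 + ψ' t - v1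
        · refine res_of a0 a1 b0 b1 c0 c1 t ψ' _ (w1 - v0) _ v1 w0 _ h00 h01 (by abel)
            (by rw [hc]; abel) hsum (Or.inr (Or.inr (Or.inl ⟨by linarith, by linarith⟩)))
        · exfalso
          have hE := class_card a1 ψ' hc
          have e1 := k3a a1 b0 c1 ψ' (w1 - v0) v0 w1 (by abel)
          have e2 := k3a a1 b1 (fun z => c0 (z + t)) ψ' (w0 + ψ' t - v1) v1 (w0 + ψ' t) (by abel)
          rw [nm_shift] at e2
          have hEN : (nm a1 ψ' (w1 - v0) : ℤ) ≤ Fintype.card Q := by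
            exact_mod_cast nm_le a1 ψ' (w1 - v0)
          have := numB (by positivity) hEN hE f2 f3 f4 f5 q1z s0z e1 e2
          linarith
  · by_cases g10 : 4 * (bad a1 b0 c1).card < Fintype.card Q ^ 2
    · obtain ⟨ψ', u1, v0', w1, h10, p1, q0', s1⟩ := hg a1 b0 c1 g10
      obtain ⟨rfl, rfl⟩ := hom_unique b0 ψ ψ' v0 v0' q0 q0'
      obtain ⟨f4, -, f5⟩ := k1' a1 b0 c1 _ u1 _ w1 h10 p1 q0 s1
      have p1z : 4 * (nm a1 ψ' u1 : ℤ) < Fintype.card Q := by exact_mod_cast p1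
      have s1z : 4 * (nm c1 ψ' w1 : ℤ) < Fintype.card Q := by exact_mod_cast s1
      by_cases g11 : 4 * (bad a1 b1 fun z => c0 (z + t)).card < Fintype.card Q ^ 2
      · -- (10), (11)
        obtain ⟨ψ'', u1', v1, w0', h11, p1', q1, s0'⟩ := hg a1 b1 _ g11
        obtain ⟨rfl, rfl⟩ := hom_unique a1 ψ' ψ'' u1 u1' p1 p1'
        obtain ⟨-, rfl⟩ := hom_unique _ _ _ _ w0' s0t s0'
        obtain ⟨-, f6, -⟩ := k1' a1 b1 _ _ _ v1 _ h11 p1 q1 s0t
        have q1z : 4 * (nm b1 ψ'' v1 : ℤ) < Fintype.card Q := by exact_mod_cast q1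
        by_cases h01 : u0 + v1 = w1
        · exact res_of a0 a1 b0 b1 c0 c1 t ψ'' u0 _ _ v1 w0 _ h00 h01 h10 h11 hsum
            (Or.inl ⟨by linarith, by linarith⟩)
        · exfalso
          have e := k2 a0 b1 c1 ψ'' u0 v1 w1 h01
          have := numA f1 f6 f5 e
          linarith
      · -- only (10)
        by_cases hc : w1 - u0 = w0 + ψ' t - u1
        · refine res_of a0 a1 b0 b1 c0 c1 t ψ' u0 u1 _ (w1 - u0) w0 _ h00 (by abel) h10
            (by rw [hc]; abel) hsum (Or.inr (Or.inl ⟨by linarith, by linarith⟩))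
        · exfalso
          have hE := class_card b1 ψ' hc
          have e1 := k3b a0 b1 c1 ψ' u0 (w1 - u0) w1 (by abel)
          have e2 := k3b a1 b1 (fun z => c0 (z + t)) ψ' u1 (w0 + ψ' t - u1) (w0 + ψ' t) (by abel)
          rw [nm_shift] at e2
          have hEN : (nm b1 ψ' (w1 - u0) : ℤ) ≤ Fintype.card Q := by
            exact_mod_cast nm_le b1 ψ' (w1 - u0)
          have := numB (by positivity) hEN hE f1 f3 f4 f5 p1z s0z e1 e2
          linarith
    · by_cases g11 : 4 * (bad a1 b1 fun z => c0 (z + t)).card < Fintype.card Q ^ 2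
      · -- only (11)
        obtain ⟨ψ', u1, v1, w0', h11, p1, q1, s0'⟩ := hg a1 b1 _ g11
        obtain ⟨rfl, rfl⟩ := hom_unique _ ψ ψ' _ w0' s0t s0'
        obtain ⟨f4, f5, -⟩ := k1' a1 b1 _ _ u1 v1 _ h11 p1 q1 s0t
        have p1z : 4 * (nm a1 ψ' u1 : ℤ) < Fintype.card Q := by exact_mod_cast p1
        have q1z : 4 * (nm b1 ψ' v1 : ℤ) < Fintype.card Q := by exact_mod_cast q1
        by_cases hc : u0 + v1 = u1 + v0
        · refine res_of a0 a1 b0 b1 c0 c1 t ψ' u0 u1 v0 v1 w0 _ h00 rfl hc.symm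
            h11 hsum (Or.inl ⟨by linarith, by linarith⟩)
        · exfalso
          have hE := class_card c1 ψ' hc
          have e1 := k3c a0 b1 c1 ψ' u0 v1 (u0 + v1) rfl
          have e2 := k3c a1 b0 c1 ψ' u1 v0 (u1 + v0) rfl
          have hEN : (nm c1 ψ' (u0 + v1) : ℤ) ≤ Fintype.card Q := by
            exact_mod_cast nm_le c1 ψ' (u0 + v1)
          have := numB (by positivity) hEN hE f1 f2 f4 f5 p1z q0z e1 e2
          linarith
      · -- none
        have l01 : (Fintype.card Q : ℤ) ^ 2 ≤ 4 * (bad a0 b1 c1).card := by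
          exact_mod_cast not_lt.1 g01
        have l10 : (Fintype.card Q : ℤ) ^ 2 ≤ 4 * (bad a1 b0 c1).card := by
          exact_mod_cast not_lt.1 g10
        have l11 : (Fintype.card Q : ℤ) ^ 2 ≤ 4 * (bad a1 b1 fun z => c0 (z + t)).card := by
          exact_mod_cast not_lt.1 g11
        obtain ⟨v1, hv1, hw1⟩ := majbc a0 b1 c1 ψ u0 (by
          have : (2 : ℤ) * (bad a0 b1 c1).card + 2 * (nm a0 ψ u0 * Fintype.card Q) <
              Fintype.card Q ^ 2 := by linarith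
          exact_mod_cast this)
        obtain ⟨u1, hu1, hw1'⟩ := majac a1 b0 c1 ψ v0 (by
          have : (2 : ℤ) * (bad a1 b0 c1).card + 2 * (nm b0 ψ v0 * Fintype.card Q) <
              Fintype.card Q ^ 2 := by linarith
          exact_mod_cast this)
        obtain ⟨u1', v1', h11, hu1', hv1'⟩ := majab a1 b1 (fun z => c0 (z + t)) ψ (w0 + ψ t) (by
          have : (2 : ℤ) * (bad a1 b1 fun z => c0 (z + t)).card +
              2 * (nm (fun z => c0 (z + t)) ψ (w0 + ψ t) * Fintype.card Q) <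
              Fintype.card Q ^ 2 := by
            rw [nm_shift]
            linarith
          exact_mod_cast this)
        have eu : u1' = u1 := class_unique a1 ψ _ _ (by omega)
        have ev : v1' = v1 := class_unique b1 ψ _ _ (by omega)
        have ew : u0 + v1 = u1 + v0 := class_unique c1 ψ _ _ (by omega)
        subst eu ev
        have hu1z : 2 * (nm a1 ψ u1' : ℤ) < Fintype.card Q := by exact_mod_cast hu1
        have hv1z : 2 * (nm b1 ψ v1' : ℤ) < Fintype.card Q := by exact_mod_cast hv1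
        have hw1z : 2 * (nm c1 ψ (u0 + v1') : ℤ) < Fintype.card Q := by exact_mod_cast hw1
        exact res_of a0 a1 b0 b1 c0 c1 t ψ u0 _ v0 _ w0 _ h00 rfl ew.symm h11 hsum
          (Or.inr (Or.inr (Or.inr ⟨by linarith, by linarith, by linarith⟩)))

end core

end Pool.Agent.U295.Cay
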