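import Mathlib
import Pool.Agent.U295.Cay.Two2

/-! 2-groups: the induction. -/

set_option autoImplicit false
set_option linter.unusedSectionVars false

namespace Pool.Agent.U295.Cay

open Finset

universe u1 u2

section split

variable {P : Type u1} {H : Type u2} [AddCommGroup P] [Fintype P] [DecidableEq P] [AddCommGroup H]
  [DecidableEq H]
variable (K : AddSubgroup P) [Fintype K] (hK : K.index = 2) (g : P) (hg : g ∉ K)

include hK hg in
theorem split_bij : Function.Bijective (Sum.elim (fun x : K => (x : P)) (fun x : K => (x : P) + g)) := by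
  classical
  rw [Fintype.bijective_iff_injective_and_card]
  constructor
  · rintro (x | x) (y | y) h
    · simp only [Sum.elim_inl] at h
      rw [Subtype.ext h]
    · simp only [Sum.elim_inl, Sum.elim_inr] at h
      exfalso
      apply hg
      have : g = (x : P) - y := by rw [h]; abel
      rw [this]
      exact K.sub_mem x.2 y.2
    · simp only [Sum.elim_inl, Sum.elim_inr] at h
      exfalso
      apply hg
      have : g = (y : P) - x := by rw [← h]; abel
      rw [this]
      exact K.sub_mem y.2 x.2
    · simp only [Sum.elim_inr, add_left_inj] at h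
      rw [Subtype.ext h]
  · have h1 := K.card_mul_index
    rw [hK, Nat.card_eq_fintype_card, Nat.card_eq_fintype_card] at h1
    rw [Fintype.card_sum]
    omega

include hK hg in
theorem sum_split {M : Type*} [AddCommMonoid M] (F : P → M) :
    ∑ x : P, F x = ∑ x : K, F x + ∑ x : K, F (x + g) := by
  rw [← Equiv.sum_comp (Equiv.ofBijective _ (split_bij K hK g hg)) F, Fintype.sum_sum_type]
  rfl

theorem bad_sum {Q : Type*} [AddCommGroup Q] [Fintype Q] [DecidableEq Q] (a b c : Q → H) :
    (bad a b c).card = ∑ x, ∑ y, if a x + b y ≠ c (x + y) then 1 else 0 := by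
  unfold bad
  rw [card_filter, ← Finset.univ_product_univ, sum_product]

theorem nm_sum {Q : Type*} [AddCommGroup Q] [Fintype Q] (f : Q → H) (ψ : Q →+ H) (u : H) :
    nm f ψ u = ∑ x, if f x ≠ ψ x + u then 1 else 0 := by
  unfold nm
  rw [card_filter]

include hK hg in
theorem bad_split [DecidableEq K] (t : K) (ht : (t : P) = g + g) (α β γ : P → H) :
    (bad α β γ).card = (bad (fun x : K => α x) (fun x : K => β x) (fun x : K => γ x)).card +
      (bad (fun x : K => α x) (fun x : K => β (x + g)) (fun x : K => γ (x + g))).card +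
      (bad (fun x : K => α (x + g)) (fun x : K => β x) (fun x : K => γ (x + g))).card +
      (bad (fun x : K => α (x + g)) (fun x : K => β (x + g)) (fun x : K => γ ((x + t : K) : P))).card := by
  rw [bad_sum, bad_sum, bad_sum, bad_sum, bad_sum, sum_split K hK g hg]
  have e : ∀ x : P, (∑ y : P, if α x + β y ≠ γ (x + y) then 1 else 0) =
      (∑ y : K, if α x + β y ≠ γ (x + y) then 1 else 0) +
      ∑ y : K, if α x + β (y + g) ≠ γ (x + (y + g)) then 1 else 0 := fun x =>
    sum_split K hK g hg (fun y => if α x + β y ≠ γ (x + y) then 1 else 0)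
  simp_rw [e, sum_add_distrib]
  have e1 : ∀ x y : K, (x : P) + (y + g) = ((x + y : K) : P) + g := fun x y => by
    push_cast; abel
  have e2 : ∀ x y : K, (x : P) + g + y = ((x + y : K) : P) + g := fun x y => by
    push_cast; abel
  have e3 : ∀ x y : K, (x : P) + g + (y + g) = ((x + y + t : K) : P) := fun x y => by
    push_cast; rw [ht]; abel
  have e4 : ∀ x y : K, (x : P) + y = ((x + y : K) : P) := fun x y => by push_cast; rfl
  simp_rw [e1, e2, e3, e4]
  ring

include hK hg in
theorem nm_split (f : P → H) (ψ : P →+ H) (u : H) :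
    nm f ψ u = nm (fun x : K => f x) (ψ.comp K.subtype) u +
      nm (fun x : K => f (x + g)) (ψ.comp K.subtype) (u + ψ g) := by
  rw [nm_sum, nm_sum, nm_sum, sum_split K hK g hg]
  congr 1
  refine sum_congr rfl fun x _ => ?_
  have : ψ ((x : P) + g) + u = (ψ.comp K.subtype) x + (u + ψ g) := by
    rw [map_add, AddMonoidHom.comp_apply, AddSubgroup.subtype_apply]
    abel
  rw [this]

include hK hg in
theorem exists_ext (t : K) (ht : (t : P) = g + g) (ψ0 : K →+ H) (h : H) (hh : h + h = ψ0 t) :
    ∃ ψ : P →+ H, ψ.comp K.subtype = ψ0 ∧ ψ g = h := by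
  classical
  have hiff : ∀ a b : P, a + b ∈ K ↔ (a ∈ K ↔ b ∈ K) := fun a b =>
    AddSubgroup.add_mem_iff_of_index_two hK
  have hsub : ∀ x, x ∉ K → x - g ∈ K := by
    intro x hx
    rw [sub_eq_add_neg, hiff]
    rw [neg_mem_iff]
    tauto
  set F : P → H := fun x => if hx : x ∈ K then ψ0 ⟨x, hx⟩ else ψ0 ⟨x - g, hsub x hx⟩ + h with hF
  have hadd : ∀ x y, F (x + y) = F x + F y := by
    intro x y
    by_cases hx : x ∈ K <;> by_cases hy : y ∈ K
    · have hxy : x + y ∈ K := K.add_mem hx hy
      simp only [hF, dif_pos hx, dif_pos hy, dif_pos hxy]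
      rw [← map_add]
      congr 1
    · have hxy : x + y ∉ K := by rw [hiff]; tauto
      simp only [hF, dif_pos hx, dif_neg hy, dif_neg hxy]
      rw [← add_assoc, ← map_add]
      congr 2
      apply Subtype.ext
      simp only [AddMemClass.mk_add_mk]
      abel
    · have hxy : x + y ∉ K := by rw [hiff]; tauto
      simp only [hF, dif_pos hy, dif_neg hx, dif_neg hxy]
      rw [add_right_comm, ← map_add]
      congr 2
      apply Subtype.ext
      simp only [AddMemClass.mk_add_mk]
      abel
    · have hxy : x + y ∈ K := by rw [hiff]; tauto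
      simp only [hF, dif_neg hx, dif_neg hy, dif_pos hxy]
      have e1 : ψ0 ⟨x - g, hsub x hx⟩ + h + (ψ0 ⟨y - g, hsub y hy⟩ + h) =
          ψ0 ⟨x - g, hsub x hx⟩ + ψ0 ⟨y - g, hsub y hy⟩ + (h + h) := by abel
      rw [e1, hh, ← map_add, ← map_add]
      congr 1
      apply Subtype.ext
      simp only [AddMemClass.mk_add_mk, AddSubgroup.coe_add, ht]
      abel
  refine ⟨AddMonoidHom.mk' F hadd, ?_, ?_⟩
  · ext x
    simp only [AddMonoidHom.comp_apply, AddSubgroup.subtype_apply, AddMonoidHom.mk'_apply, hF,
      dif_pos x.2]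
  · simp only [AddMonoidHom.mk'_apply, hF, dif_neg hg]
    have : (⟨g - g, hsub g hg⟩ : K) = 0 := Subtype.ext (by simp)
    rw [this, map_zero, zero_add]

end split

theorem exists_index_two {P : Type u1} [AddCommGroup P] [Fintype P] {k : ℕ}
    (hP : Fintype.card P = 2 ^ (k + 1)) :
    ∃ K : AddSubgroup P, K.index = 2 ∧ Nat.card K = 2 ^ k := by
  have : Fact (Nat.Prime 2) := ⟨Nat.prime_two⟩
  obtain ⟨K, hK⟩ := Sylow.exists_subgroup_card_pow_prime (G := Multiplicative P) 2 (n := k) (by
    have : Nat.card (Multiplicative P) = 2 ^ (k + 1) := by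
      rw [← hP, ← Nat.card_eq_fintype_card]
      rfl
    rw [this]
    exact pow_dvd_pow 2 (Nat.le_succ k))
  have h1 : Nat.card (Subgroup.toAddSubgroup' K) = 2 ^ k := hK
  refine ⟨Subgroup.toAddSubgroup' K, ?_, h1⟩
  have h2 := (Subgroup.toAddSubgroup' K).card_mul_index
  rw [h1, Nat.card_eq_fintype_card, hP, pow_succ] at h2
  exact Nat.eq_of_mul_eq_mul_left (by positivity) h2

/-- shifting the three functions -/
theorem bad_shift {P : Type u1} {H : Type u2} [AddCommGroup P] [Fintype P] [DecidableEq P]
    [AddCommGroup H] [DecidableEq H] (α β γ : P → H) (r s : P) :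
    (bad (fun x => α (x + r)) (fun x => β (x + s)) (fun x => γ (x + (r + s)))).card =
      (bad α β γ).card := by
  unfold bad
  refine card_bij (fun d _ => (d.1 + r, d.2 + s)) ?_ ?_ ?_
  · intro d hd
    simp only [mem_filter, mem_univ, true_and] at hd ⊢
    have : d.1 + r + (d.2 + s) = d.1 + d.2 + (r + s) := by abel
    rw [this]
    exact hd
  · rintro ⟨x, y⟩ _ ⟨x', y'⟩ _ h
    simp only [Prod.mk.injEq, add_left_inj] at h ⊢
    exact h
  · rintro ⟨x, y⟩ hd
    simp only [mem_filter, mem_univ, true_and] at hd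
    refine ⟨(x - r, y - s), ?_, by simp⟩
    simp only [mem_filter, mem_univ, true_and, sub_add_cancel]
    have : x - r + (y - s) + (r + s) = x + y := by abel
    rw [this]
    exact hd

theorem unshift {P : Type u1} {H : Type u2} [AddCommGroup P] [Fintype P] [DecidableEq P]
    [AddCommGroup H] [DecidableEq H] (α β γ : P → H) (r s : P)
    (h : ∃ (ψ : P →+ H) (u v w : H), u + v = w ∧ 4 * nm (fun x => α (x + r)) ψ u < Fintype.card P ∧
      4 * nm (fun x => β (x + s)) ψ v < Fintype.card P ∧
      4 * nm (fun x => γ (x + (r + s))) ψ w < Fintype.card P) :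
    ∃ (ψ : P →+ H) (u v w : H), u + v = w ∧ 4 * nm α ψ u < Fintype.card P ∧
      4 * nm β ψ v < Fintype.card P ∧ 4 * nm γ ψ w < Fintype.card P := by
  obtain ⟨ψ, u, v, w, h1, h2, h3, h4⟩ := h
  refine ⟨ψ, u - ψ r, v - ψ s, w - ψ (r + s), ?_, ?_, ?_, ?_⟩
  · rw [← h1, map_add]; abel
  · rw [← nm_shift α ψ (u - ψ r) r, sub_add_cancel]; exact h2
  · rw [← nm_shift β ψ (v - ψ s) s, sub_add_cancel]; exact h3
  · rw [← nm_shift γ ψ (w - ψ (r + s)) (r + s), sub_add_cancel]; exact h4

theorem four_lt {a b c d n : ℕ} (h : 4 * (a + b + c + d) < (2 * n) ^ 2) :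
    (a : ℤ) + b + c + d < (n : ℤ) ^ 2 := by
  have : ((4 * (a + b + c + d) : ℕ) : ℤ) < ((2 * n) ^ 2 : ℕ) := by exact_mod_cast h
  push_cast at this
  linarith

/-- **The bound for 2-groups.** -/
theorem good_two {H : Type u2} [AddCommGroup H] [DecidableEq H] (k : ℕ) :
    ∀ (P : Type u1) [AddCommGroup P] [Fintype P] [DecidableEq P],
      Fintype.card P = 2 ^ k → Good2 P H := by
  induction k with
  | zero =>
    intro P _ _ _ hP α β γ hB
    rw [pow_zero] at hP
    have : Subsingleton P := Fintype.card_le_one_iff_subsingleton.1 hP.le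
    have h0 : (bad α β γ).card = 0 := by rw [hP] at hB; omega
    have h1 : α 0 + β 0 = γ 0 := by
      by_contra hc
      have : ((0 : P), (0 : P)) ∈ bad α β γ := by simpa [bad] using hc
      rw [card_eq_zero] at h0
      rw [h0] at this
      simp at this
    have h2 : ∀ f : P → H, nm f 0 (f 0) = 0 := by
      intro f
      unfold nm
      rw [card_eq_zero, filter_eq_empty_iff]
      intro x _
      rw [Subsingleton.elim x 0]
      simp
    refine ⟨0, α 0, β 0, γ 0, h1, ?_, ?_, ?_⟩ <;> rw [h2, hP] <;> norm_num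
  | succ k ih =>
    intro P _ _ _ hP
    classical
    obtain ⟨K, hK, hKc⟩ := exists_index_two hP
    have : Fintype K := Fintype.ofFinite K
    have hKc' : Fintype.card K = 2 ^ k := by rw [← Nat.card_eq_fintype_card, hKc]
    have hcP : Fintype.card P = 2 * Fintype.card K := by rw [hP, hKc', pow_succ]; ring
    obtain ⟨g, hg⟩ : ∃ g, g ∉ K := by
      by_contra hc
      push Not at hc
      have : K = ⊤ := by
        ext x; simp [hc x]
      rw [this, AddSubgroup.index_top] at hK
      omega
    have htm : g + g ∈ K := (AddSubgroup.add_mem_iff_of_index_two hK).2 Iff.rfl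
    set t : K := ⟨g + g, htm⟩ with ht
    have hgood : Good2 K H := ih K hKc'
    -- the case when the first block is good
    have main : ∀ α β γ : P → H, 4 * (bad α β γ).card < Fintype.card P ^ 2 →
        4 * (bad (fun x : K => α x) (fun x : K => β x) (fun x : K => γ x)).card <
          Fintype.card K ^ 2 →
        ∃ (ψ : P →+ H) (u v w : H), u + v = w ∧ 4 * nm α ψ u < Fintype.card P ∧
          4 * nm β ψ v < Fintype.card P ∧ 4 * nm γ ψ w < Fintype.card P := by
      intro α β γ hB h0
      have hs := bad_split K hK g hg t rfl α β γ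
      obtain ⟨ψ0, x0, x1, y0, y1, z0, z1, h00, h01, h10, h11, hP', hQ', hS'⟩ :=
        core (fun x : K => α x) (fun x : K => α (x + g)) (fun x : K => β x)
          (fun x : K => β (x + g)) (fun x : K => γ x) (fun x : K => γ (x + g)) t hgood h0 (by
          rw [hs, hcP] at hB
          exact four_lt hB)
      obtain ⟨ψ, hψ, hψg⟩ := exists_ext K hK g hg t rfl ψ0 (y1 - y0) (by
        have e1 : y1 - y0 = x1 - x0 := by
          rw [sub_eq_sub_iff_add_eq_add, add_comm y1, h01, h10]
        have e2 : (y1 - y0) + (y1 - y0) = (x1 + y1) - (x0 + y0) := by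
          nth_rewrite 2 [e1]
          abel
        rw [e2, h11, h00]
        abel)
      have ex : x0 + ψ g = x1 := by
        have e1 : y1 - y0 = x1 - x0 := by
          rw [sub_eq_sub_iff_add_eq_add, add_comm y1, h01, h10]
        rw [hψg, e1]; abel
      have ey : y0 + ψ g = y1 := by rw [hψg]; abel
      have ez : z0 + ψ g = z1 := by rw [hψg, ← h00, ← h01]; abel
      refine ⟨ψ, x0, y0, z0, h00, ?_, ?_, ?_⟩
      · rw [nm_split K hK g hg, hψ, ex, hcP]; omega
      · rw [nm_split K hK g hg, hψ, ey, hcP]; omega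
      · rw [nm_split K hK g hg, hψ, ez, hcP]; omega
    intro α β γ hB
    have hs := bad_split K hK g hg t rfl α β γ
    have hB' : 4 * (bad α β γ).card < 4 * Fintype.card K ^ 2 := by
      rw [hcP] at hB
      calc _ < _ := hB
        _ = _ := by ring
    by_cases c0 : 4 * (bad (fun x : K => α x) (fun x : K => β x) (fun x : K => γ x)).card <
          Fintype.card K ^ 2
    · exact main α β γ hB c0
    by_cases c1 : 4 * (bad (fun x : K => α x) (fun x : K => β (x + g))
        (fun x : K => γ (x + g))).card < Fintype.card K ^ 2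
    · apply unshift α β γ 0 g
      apply main
      · rw [bad_shift]; exact hB
      · simpa using c1
    by_cases c2 : 4 * (bad (fun x : K => α (x + g)) (fun x : K => β x)
        (fun x : K => γ (x + g))).card < Fintype.card K ^ 2
    · apply unshift α β γ g 0
      apply main
      · rw [bad_shift]; exact hB
      · simpa using c2
    by_cases c3 : 4 * (bad (fun x : K => α (x + g)) (fun x : K => β (x + g))
        (fun x : K => γ ((x + t : K) : P))).card < Fintype.card K ^ 2
    · apply unshift α β γ g g
      apply main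
      · rw [bad_shift]; exact hB
      · exact c3
    omega

/-- For 2-groups: few bad pairs give an injective homomorphism. -/
theorem two_bound {P : Type u1} {H : Type u2} [AddCommGroup P] [Fintype P] [DecidableEq P]
    [AddCommGroup H] [DecidableEq H] {k : ℕ} (hP : Fintype.card P = 2 ^ k) (α β γ : P → H)
    (hα : Function.Injective α) (hB : 4 * (bad α β γ).card < Fintype.card P ^ 2) :
    ∃ ψ : P →+ H, Function.Injective ψ := by
  classical
  obtain ⟨ψ, u, v, w, -, h1, -, -⟩ := good_two k P hP α β γ hB
  refine ⟨ψ, ?_⟩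
  rw [injective_iff_map_eq_zero]
  intro a ha
  have h2 := nm_add_card α ψ u
  obtain ⟨x, hx, hy⟩ := exists_both (univ.filter fun x => α x = ψ x + u)
    ((univ.filter fun x => α x = ψ x + u).image fun x => x - a) (by
      rw [card_image_of_injective _ (sub_left_injective)]
      omega)
  rw [mem_image] at hy
  obtain ⟨y, hy, rfl⟩ := hy
  simp only [mem_filter, mem_univ, true_and, map_sub, ha, sub_zero] at hx hy
  have : y - a = y := hα (by rw [hx, hy])
  simpa using this

end Pool.Agent.U295.Cay
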