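import Mathlib
import Pool.Agent.U295.Cay.Two3
import Pool.Agent.U295.Cay.Kn

/-! From Sylow subgroups to the whole group. -/

set_option autoImplicit false
set_option linter.unusedSectionVars false

namespace Pool.Agent.U295.Cay

open Finset

variable {G H : Type*} [AddCommGroup G] [Fintype G] [DecidableEq G] [AddCommGroup H] [DecidableEq H]

/-- Averaging over the translates of a subgroup. -/
theorem exists_block (K : AddSubgroup G) [Fintype K] [DecidableEq K] (α β γ : G → H) :
    ∃ r s : G, Fintype.card G ^ 2 * (bad (fun x : K => α (x + r)) (fun x : K => β (x + s))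
      (fun x : K => γ (x + (r + s)))).card ≤ Fintype.card K ^ 2 * (bad α β γ).card := by
  classical
  by_contra hc
  push Not at hc
  have h1 : ∑ r : G, ∑ s : G, (bad (fun x : K => α (x + r)) (fun x : K => β (x + s))
      (fun x : K => γ (x + (r + s)))).card = Fintype.card K ^ 2 * (bad α β γ).card := by
    simp_rw [bad_sum]
    have e1 : ∀ x y : K, (∑ r : G, ∑ s : G, if α (x + r) + β (y + s) ≠
        γ (((x + y : K) : G) + (r + s)) then 1 else 0) = (bad α β γ).card := by
      intro x y
      rw [← bad_shift α β γ x y, bad_sum]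
      refine sum_congr rfl fun r _ => sum_congr rfl fun s _ => ?_
      have : ((x + y : K) : G) + (r + s) = r + s + (x + y) := by push_cast; abel
      rw [this, add_comm (x : G) r, add_comm (y : G) s]
    calc _ = ∑ x : K, ∑ y : K, (∑ r : G, ∑ s : G, if α (x + r) + β (y + s) ≠
        γ (((x + y : K) : G) + (r + s)) then 1 else 0) := by
          have e2 : ∀ r : G, (∑ s : G, ∑ x : K, ∑ y : K, if α (x + r) + β (y + s) ≠
              γ (((x + y : K) : G) + (r + s)) then 1 else 0) =
              ∑ x : K, ∑ y : K, ∑ s : G, if α (x + r) + β (y + s) ≠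
              γ (((x + y : K) : G) + (r + s)) then 1 else 0 := by
            intro r
            rw [sum_comm]
            refine sum_congr rfl fun x _ => ?_
            rw [sum_comm]
          simp_rw [e2]
          rw [sum_comm]
          refine sum_congr rfl fun x _ => ?_
          rw [sum_comm]
      _ = _ := by
          simp_rw [e1]
          rw [sum_const, sum_const, card_univ, smul_eq_mul, smul_eq_mul, ← bad_sum]
          ring
  have h2 : ∑ r : G, ∑ s : G, Fintype.card K ^ 2 * (bad α β γ).card <
      ∑ r : G, ∑ s : G, Fintype.card G ^ 2 * (bad (fun x : K => α (x + r))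
        (fun x : K => β (x + s)) (fun x : K => γ (x + (r + s)))).card := by
    refine sum_lt_sum_of_nonempty ⟨0, mem_univ _⟩ fun r _ => ?_
    exact sum_lt_sum_of_nonempty ⟨0, mem_univ _⟩ fun s _ => hc r s
  simp_rw [← mul_sum] at h2
  rw [h1, sum_const, card_univ, sum_const, card_univ, smul_eq_mul, smul_eq_mul] at h2
  refine absurd h2 (not_lt.2 (le_of_eq ?_))
  ring

/-- A homomorphism that is injective on the `p`-part. -/
def PartInj (G H : Type*) [AddCommGroup G] [AddCommGroup H] (n p : ℕ) : Prop :=
  ∃ Ψ : G →+ H, (∀ x, ordProj[p] n • Ψ x = 0) ∧ ∀ x, Ψ x = 0 → ordCompl[p] n • x = 0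

theorem partInj_of_sub {n p : ℕ} (hG : Nat.card G = n) (K : AddSubgroup G)
    (hK : Nat.card K = ordProj[p] n) (ψ : K →+ H) (hψ : Function.Injective ψ) :
    PartInj G H n p := by
  have hn : n ≠ 0 := by rw [← hG]; exact Nat.card_pos.ne'
  have hidx : K.index = ordCompl[p] n := by
    have h1 := K.card_mul_index
    rw [hG, hK] at h1
    have h2 := Nat.ordProj_mul_ordCompl_eq_self n p
    exact Nat.eq_of_mul_eq_mul_left (Nat.ordProj_pos n p) (h1.trans h2.symm)
  have hmem : ∀ x : G, ordCompl[p] n • x ∈ K := by
    intro x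
    rw [← hidx]
    exact K.nsmul_index_mem x
  set m : G →+ K := (nsmulAddMonoidHom (α := G) (ordCompl[p] n)).codRestrict K hmem with hm
  refine ⟨ψ.comp m, ?_, ?_⟩
  · intro x
    rw [AddMonoidHom.comp_apply, ← map_nsmul, ← map_nsmul]
    have : m (ordProj[p] n • x) = 0 := by
      apply Subtype.ext
      show ordCompl[p] n • (ordProj[p] n • x) = 0
      rw [← mul_smul, mul_comm, Nat.ordProj_mul_ordCompl_eq_self, ← hG]
      exact card_nsmul_eq_zero'
    rw [this, map_zero]
  · intro x hx
    rw [AddMonoidHom.comp_apply] at hx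
    have h1 : m x = 0 := by
      apply hψ
      rw [hx, map_zero]
    have h2 := congrArg (Subtype.val) h1
    exact h2

theorem iso_of_partInj [Fintype H] {n : ℕ} (hG : Nat.card G = n) (hH : Nat.card H = n)
    (h : ∀ p, p.Prime → p ∣ n → PartInj G H n p) : Nonempty (G ≃+ H) := by
  classical
  have hn : n ≠ 0 := by rw [← hG]; exact Nat.card_pos.ne'
  have h' : ∀ p : ℕ, ∃ Ψ : G →+ H, p ∈ n.primeFactors →
      (∀ x, ordProj[p] n • Ψ x = 0) ∧ ∀ x, Ψ x = 0 → ordCompl[p] n • x = 0 := by
    intro p
    by_cases hp : p ∈ n.primeFactors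
    · obtain ⟨Ψ, hΨ⟩ := h p (Nat.prime_of_mem_primeFactors hp) (Nat.dvd_of_mem_primeFactors hp)
      exact ⟨Ψ, fun _ => hΨ⟩
    · exact ⟨0, fun h => absurd h hp⟩
  choose Ψ hΨ using h'
  set F : G →+ H := ∑ p ∈ n.primeFactors, Ψ p with hF
  have hFx : ∀ x, F x = ∑ p ∈ n.primeFactors, Ψ p x := by
    intro x
    rw [hF, AddMonoidHom.finsetSum_apply]
  have hinj : Function.Injective F := by
    rw [injective_iff_map_eq_zero]
    intro x hx
    -- every part vanishes
    have hpart : ∀ p ∈ n.primeFactors, ordCompl[p] n • x = 0 := by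
      intro p hp
      have hpp := Nat.prime_of_mem_primeFactors hp
      apply (hΨ p hp).2
      have h1 : ordCompl[p] n • Ψ p x = 0 := by
        have h2 : ordCompl[p] n • F x = ordCompl[p] n • Ψ p x := by
          rw [hFx, smul_sum, sum_eq_single p]
          · intro q hq hqp
            have hqq := Nat.prime_of_mem_primeFactors hq
            have hdvd : ordProj[q] n ∣ ordCompl[p] n := by
              have h3 : Nat.Coprime (ordProj[q] n) (ordProj[p] n) :=
                Nat.Coprime.pow _ _ ((Nat.coprime_primes hqq hpp).2 hqp)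
              apply h3.dvd_of_dvd_mul_left
              rw [Nat.ordProj_mul_ordCompl_eq_self]
              exact Nat.ordProj_dvd n q
            obtain ⟨c, hc⟩ := hdvd
            rw [hc, mul_comm, mul_smul, (hΨ q hq).1, smul_zero]
          · intro h; exact absurd hp h
        rw [← h2, hx, smul_zero]
      have h2 := (hΨ p hp).1 x
      have hcop : Nat.Coprime (ordProj[p] n) (ordCompl[p] n) :=
        Nat.Coprime.pow_left _ (Nat.coprime_ordCompl hpp hn)
      rw [← addOrderOf_dvd_iff_nsmul_eq_zero] at h1 h2
      have h3 := Nat.dvd_gcd h2 h1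
      rw [hcop.gcd_eq_one, Nat.dvd_one, AddMonoid.addOrderOf_eq_one_iff] at h3
      exact h3
    by_contra hne
    have hord : addOrderOf x ≠ 1 := fun h => hne (AddMonoid.addOrderOf_eq_one_iff.1 h)
    obtain ⟨p, hp, hpd⟩ := Nat.exists_prime_and_dvd hord
    have hpn : p ∣ n := by
      rw [← hG]
      exact hpd.trans (addOrderOf_dvd_natCard x)
    have h1 := hpart p (Nat.mem_primeFactors.2 ⟨hp, hpn, hn⟩)
    rw [← addOrderOf_dvd_iff_nsmul_eq_zero] at h1
    exact Nat.not_dvd_ordCompl hp hn (hpd.trans h1)
  have hbij : Function.Bijective F := by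
    rw [Fintype.bijective_iff_injective_and_card]
    exact ⟨hinj, by rw [← Nat.card_eq_fintype_card, ← Nat.card_eq_fintype_card, hG, hH]⟩
  exact ⟨AddEquiv.ofBijective F hbij⟩

theorem exists_sub_card {n p k : ℕ} (hG : Nat.card G = n) (hp : p.Prime) (hd : p ^ k ∣ n) :
    ∃ K : AddSubgroup G, Nat.card K = p ^ k := by
  have : Fact p.Prime := ⟨hp⟩
  obtain ⟨K, hK⟩ := Sylow.exists_subgroup_card_pow_prime (G := Multiplicative G) p (n := k) (by
    have : Nat.card (Multiplicative G) = n := hG
    rw [this]
    exact hd)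
  exact ⟨Subgroup.toAddSubgroup' K, hK⟩

/-- **Few bad pairs force an isomorphism.** -/
theorem iso_of_bad [Fintype H] {n : ℕ} (hG : Nat.card G = n) (hH : Nat.card H = n)
    (α β γ : G → H) (hα : Function.Injective α)
    (h2 : 4 ∣ n → 4 * (bad α β γ).card < n ^ 2)
    (hodd : ∀ p, p.Prime → p ≠ 2 → p ^ 2 ∣ n →
      4 * p ^ 2 * (bad α β γ).card < n ^ 2 * (p ^ 2 - 1)) : Nonempty (G ≃+ H) := by
  classical
  have hn : n ≠ 0 := by rw [← hG]; exact Nat.card_pos.ne'
  have hnpos : 0 < n ^ 2 := by positivity
  have hGc : Fintype.card G = n := by rw [← Nat.card_eq_fintype_card, hG]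
  apply iso_of_partInj hG hH
  intro p hp hpn
  obtain ⟨K, hK⟩ := exists_sub_card hG hp (Nat.ordProj_dvd n p)
  have hfK : Fintype K := Fintype.ofFinite K
  have hKc : Fintype.card K = ordProj[p] n := by rw [← Nat.card_eq_fintype_card, hK]
  obtain ⟨r, s, hrs⟩ := exists_block K α β γ
  rw [hGc] at hrs
  have hinj : Function.Injective (fun x : K => α (x + r)) := by
    intro x y hxy
    have := hα hxy
    exact Subtype.ext (add_right_cancel this)
  by_cases hp2 : p ^ 2 ∣ n
  · by_cases hpt : p = 2
    · subst hpt
      have h3 := h2 hp2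
      obtain ⟨ψ, hψ⟩ := two_bound hKc _ _ _ hinj (by
        have h4 : n ^ 2 * (4 * (bad (fun x : K => α (x + r)) (fun x : K => β (x + s))
            (fun x : K => γ (x + (r + s)))).card) < n ^ 2 * Fintype.card K ^ 2 := by
          have hKp : 0 < Fintype.card K ^ 2 := by
            have : 0 < Fintype.card K := Fintype.card_pos
            positivity
          calc _ = 4 * (n ^ 2 * (bad (fun x : K => α (x + r)) (fun x : K => β (x + s))
            (fun x : K => γ (x + (r + s)))).card) := by ring
            _ ≤ 4 * (Fintype.card K ^ 2 * (bad α β γ).card) := by gcongr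
            _ = Fintype.card K ^ 2 * (4 * (bad α β γ).card) := by ring
            _ < Fintype.card K ^ 2 * n ^ 2 := by gcongr
            _ = _ := by ring
        exact lt_of_mul_lt_mul_left h4 (by positivity))
      exact partInj_of_sub hG K hK ψ hψ
    · have h3 := hodd p hp hpt hp2
      obtain ⟨ψ, hψ⟩ := pgroup_bound hp hKc _ _ _ hinj (by
        have h4 : n ^ 2 * (4 * p ^ 2 * (bad (fun x : K => α (x + r)) (fun x : K => β (x + s))
            (fun x : K => γ (x + (r + s)))).card) < n ^ 2 * (Fintype.card K ^ 2 * (p ^ 2 - 1)) := by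
          have hKp : 0 < Fintype.card K ^ 2 := by
            have : 0 < Fintype.card K := Fintype.card_pos
            positivity
          calc _ = 4 * p ^ 2 * (n ^ 2 * (bad (fun x : K => α (x + r)) (fun x : K => β (x + s))
            (fun x : K => γ (x + (r + s)))).card) := by ring
            _ ≤ 4 * p ^ 2 * (Fintype.card K ^ 2 * (bad α β γ).card) := by gcongr
            _ = Fintype.card K ^ 2 * (4 * p ^ 2 * (bad α β γ).card) := by ring
            _ < Fintype.card K ^ 2 * (n ^ 2 * (p ^ 2 - 1)) := by gcongr
            _ = _ := by ring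
        exact lt_of_mul_lt_mul_left h4 (by positivity))
      exact partInj_of_sub hG K hK ψ hψ
  · -- the prime divides exactly once
    have hf : n.factorization p = 1 := by
      have h3 : 1 ≤ n.factorization p := (hp.dvd_iff_one_le_factorization hn).1 hpn
      have h4 : ¬ 2 ≤ n.factorization p := fun h => hp2 ((hp.pow_dvd_iff_le_factorization hn).2 h)
      omega
    have hKp : Nat.card K = p := by rw [hK, hf, pow_one]
    have : Fact p.Prime := ⟨hp⟩
    obtain ⟨h, hh⟩ := exists_prime_addOrderOf_dvd_card' (G := H) p (by rw [hH]; exact hpn)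
    have hz : Nat.card (AddSubgroup.zmultiples h) = p := by
      rw [Nat.card_zmultiples, hh]
    exact partInj_of_sub hG K hK
      ((AddSubgroup.zmultiples h).subtype.comp (addEquivOfPrimeCardEq hKp hz).toAddMonoidHom)
      ((AddSubgroup.zmultiples h).subtype_injective.comp (addEquivOfPrimeCardEq hKp hz).injective)

end Pool.Agent.U295.Cay
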