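import Mathlib
import Pool.Agent.U295.Cay.Blocks

/-! Two abelian groups whose tables are close: `ZMod (q ^ 2) × L` and `ZMod q × ZMod q × L`. -/

set_option autoImplicit false
set_option linter.unusedSectionVars false

namespace Pool.Agent.U295.Cay

open Finset

/-! ### the two groups are not isomorphic -/

/-- The number of elements killed by `q`. -/
def tor (q : ℕ) (A : Type*) [AddCommGroup A] [Fintype A] [DecidableEq A] : ℕ :=
  (univ.filter fun x : A => q • x = 0).card

theorem tor_prod (q : ℕ) (A B : Type*) [AddCommGroup A] [Fintype A] [DecidableEq A]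
    [AddCommGroup B] [Fintype B] [DecidableEq B] : tor q (A × B) = tor q A * tor q B := by
  unfold tor
  rw [← card_product, ← filter_product, univ_product_univ]
  congr 1
  ext x
  simp [Prod.ext_iff]

theorem tor_pos (q : ℕ) (A : Type*) [AddCommGroup A] [Fintype A] [DecidableEq A] : 0 < tor q A := by
  unfold tor
  rw [card_pos]
  exact ⟨0, by simp⟩

theorem tor_equiv (q : ℕ) {A B : Type*} [AddCommGroup A] [Fintype A] [DecidableEq A]
    [AddCommGroup B] [Fintype B] [DecidableEq B] (e : A ≃+ B) : tor q A = tor q B := by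
  unfold tor
  refine card_bij (fun x _ => e x) ?_ ?_ ?_
  · intro x hx
    simp only [mem_filter, mem_univ, true_and] at hx ⊢
    rw [← map_nsmul, hx, map_zero]
  · intro x _ y _ h
    exact e.injective h
  · intro y hy
    simp only [mem_filter, mem_univ, true_and] at hy
    refine ⟨e.symm y, ?_, e.apply_symm_apply y⟩
    simp only [mem_filter, mem_univ, true_and]
    rw [← map_nsmul, hy, map_zero]

theorem tor_zmod (q : ℕ) [NeZero q] : tor q (ZMod q) = q := by
  unfold tor
  have : (univ.filter fun x : ZMod q => q • x = 0) = univ := by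
    rw [filter_eq_self]
    intro x _
    rw [nsmul_eq_mul, ZMod.natCast_self, zero_mul]
  rw [this, card_univ, ZMod.card]

theorem tor_zmod_sq (q : ℕ) [NeZero q] [NeZero (q ^ 2)] : tor q (ZMod (q ^ 2)) ≤ q := by
  unfold tor
  exact IsAddCyclic.card_nsmul_eq_zero_le (NeZero.pos q)

theorem not_iso (q : ℕ) [NeZero q] (hq : 2 ≤ q) (L : Type*) [AddCommGroup L] [Fintype L]
    [DecidableEq L] : ¬ Nonempty (ZMod (q ^ 2) × L ≃+ ZMod q × ZMod q × L) := by
  rintro ⟨e⟩
  have : NeZero (q ^ 2) := ⟨pow_ne_zero 2 (NeZero.ne q)⟩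
  have h1 := tor_equiv q e
  rw [tor_prod, tor_prod, tor_prod, tor_zmod] at h1
  have h2 := tor_zmod_sq q
  have h3 := tor_pos q L
  have h4 : tor q (ZMod (q ^ 2)) * tor q L ≤ q * tor q L := Nat.mul_le_mul_right _ h2
  have h5 : q * tor q L < q * (q * tor q L) := by
    refine Nat.mul_lt_mul_of_pos_left ?_ (by omega)
    nlinarith
  omega

/-! ### the maps -/

section maps

variable (q : ℕ) [NeZero q]

/-- multiplication by `q` as an injection `ZMod q → ZMod (q ^ 2)` -/
def mulq : ZMod q →+ ZMod (q ^ 2) :=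
  ZMod.lift q ⟨zmultiplesHom (ZMod (q ^ 2)) (q : ZMod (q ^ 2)), by
    rw [zmultiplesHom_apply, natCast_zsmul, nsmul_eq_mul, ← Nat.cast_mul, ← sq]
    exact ZMod.natCast_self _⟩

theorem mulq_val (j : ZMod q) : mulq q j = ((j.val * q : ℕ) : ZMod (q ^ 2)) := by
  have : j = ((j.val : ℤ) : ZMod q) := by simp
  conv_lhs => rw [this]
  unfold mulq
  rw [ZMod.lift_coe, zmultiplesHom_apply, natCast_zsmul, nsmul_eq_mul]
  push_cast
  rfl

variable {L : Type*} [AddCommGroup L]

/-- the map without carries -/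
def amap (x : ZMod q × ZMod q × L) : ZMod (q ^ 2) × L :=
  (((x.1.val : ℕ) : ZMod (q ^ 2)) + mulq q x.2.1, x.2.2)

theorem amap_injective : Function.Injective (amap q (L := L)) := by
  rintro ⟨i, j, l⟩ ⟨i', j', l'⟩ h
  simp only [amap, Prod.mk.injEq, mulq_val, ← Nat.cast_add] at h
  obtain ⟨h1, h2⟩ := h
  rw [ZMod.natCast_eq_natCast_iff] at h1
  have hlt : ∀ i j : ZMod q, i.val + j.val * q < q ^ 2 := by
    intro i j
    have hi := ZMod.val_lt i
    have hj := ZMod.val_lt j
    nlinarith
  have h3 : i.val + j.val * q = i'.val + j'.val * q :=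
    Nat.ModEq.eq_of_lt_of_lt h1 (hlt i j) (hlt i' j')
  have hi : i.val = i'.val := by
    have h4 := congrArg (fun t => t % q) h3
    simp only [Nat.add_mul_mod_self_right] at h4
    rwa [Nat.mod_eq_of_lt (ZMod.val_lt i), Nat.mod_eq_of_lt (ZMod.val_lt i')] at h4
  have hj : j.val = j'.val := by
    rw [hi] at h3
    exact Nat.eq_of_mul_eq_mul_right (NeZero.pos q) (by omega)
  rw [ZMod.val_injective q hi, ZMod.val_injective q hj, h2]

/-- the third map, with the representatives `r, …, q + r - 1` -/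
def cmap (r : ℕ) (x : ZMod q × ZMod q × L) : ZMod (q ^ 2) × L :=
  (((((x.1 - r).val + r : ℕ)) : ZMod (q ^ 2)) + mulq q x.2.1, x.2.2)

theorem cmap_injective (r : ℕ) : Function.Injective (cmap q r (L := L)) := by
  rintro ⟨i, j, l⟩ ⟨i', j', l'⟩ h
  have h1 : amap q (i - r, j, l) = amap q (i' - r, j', l') := by
    simp only [cmap, amap, Prod.mk.injEq, Nat.cast_add] at h ⊢
    refine ⟨?_, h.2⟩
    have h2 := h.1
    rw [add_right_comm, add_right_comm _ (r : ZMod (q ^ 2))] at h2
    exact add_right_cancel h2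
  have h2 := amap_injective q h1
  simp only [Prod.mk.injEq, sub_left_inj] at h2 ⊢
  exact h2

theorem good_iff {r : ℕ} (hq : 2 ≤ q) (hr : 2 * r + 1 ≤ q) (x y : ZMod q × ZMod q × L) :
    amap q x + amap q y = cmap q r (x + y) ↔
      (r ≤ x.1.val + y.1.val ∧ x.1.val + y.1.val < q + r) := by
  obtain ⟨i, j, l⟩ := x
  obtain ⟨i', j', l'⟩ := y
  have hi := ZMod.val_lt i
  have hi' := ZMod.val_lt i'
  have hv := ZMod.val_lt (i + i' - (r : ZMod q))
  have e1 : amap q (i, j, l) + amap q (i', j', l') = cmap q r ((i, j, l) + (i', j', l')) ↔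
      ((i.val + i'.val : ℕ) : ZMod (q ^ 2)) = (((i + i' - (r : ZMod q)).val + r : ℕ) : ZMod (q ^ 2)) := by
    simp only [amap, cmap, Prod.mk_add_mk, Prod.mk.injEq, and_true, map_add]
    simp only [Nat.cast_add]
    generalize ((i + i' - (r : ZMod q)).val : ZMod (q ^ 2)) + (r : ZMod (q ^ 2)) = R
    generalize (i.val : ZMod (q ^ 2)) = A
    generalize (i'.val : ZMod (q ^ 2)) = B
    constructor
    · intro h
      have : A + B + (mulq q j + mulq q j') = R + (mulq q j + mulq q j') := by
        rw [← h]; abel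
      exact add_right_cancel this
    · intro h
      rw [← h]; abel
  rw [e1, ZMod.natCast_eq_natCast_iff]
  simp only
  have hlt1 : i.val + i'.val < q ^ 2 := by nlinarith
  have hlt2 : (i + i' - (r : ZMod q)).val + r < q ^ 2 := by nlinarith
  constructor
  · intro h
    have h2 := Nat.ModEq.eq_of_lt_of_lt h hlt1 hlt2
    omega
  · rintro ⟨h1, h2⟩
    have h3 : (i + i' - r : ZMod q) = ((i.val + i'.val - r : ℕ) : ZMod q) := by
      rw [Nat.cast_sub h1, Nat.cast_add]
      simp
    rw [h3, ZMod.val_natCast, Nat.mod_eq_of_lt (by omega), Nat.sub_add_cancel h1]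

end maps

/-! ### the count -/

theorem row_count (q r i : ℕ) (hi : i < q) (hr : r < q) :
    ((range q).filter fun j => ¬ (r ≤ i + j ∧ i + j < q + r)).card = (r - i) + (i - r) := by
  have : ((range q).filter fun j => ¬ (r ≤ i + j ∧ i + j < q + r)) =
      range (r - i) ∪ Ico (q + r - i) q := by
    ext j
    simp only [mem_filter, mem_range, mem_union, mem_Ico]
    omega
  rw [this, card_union_of_disjoint, card_range, Nat.card_Ico]
  · omega
  · rw [disjoint_left]
    intro j
    simp only [mem_range, mem_Ico]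
    omega

theorem sum_abs_base (r : ℕ) : 2 * ∑ i ∈ range (r + 1), ((r - i) + (i - r)) = r * (r + 1) := by
  have h1 : ∑ i ∈ range (r + 1), ((r - i) + (i - r)) = ∑ i ∈ range (r + 1), i := by
    rw [← sum_range_reflect (fun i => i) (r + 1)]
    refine sum_congr rfl fun i hi => ?_
    rw [mem_range] at hi
    omega
  rw [h1, mul_comm, Finset.sum_range_id_mul_two]
  simp only [Nat.add_sub_cancel]
  ring

theorem sum_abs (r s : ℕ) :
    2 * ∑ i ∈ range (r + 1 + s), ((r - i) + (i - r)) = r * (r + 1) + s * (s + 1) := by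
  induction s with
  | zero => simpa using sum_abs_base r
  | succ s ih =>
    rw [← add_assoc, sum_range_succ, mul_add, ih]
    have : r - (r + 1 + s) + (r + 1 + s - r) = s + 1 := by omega
    rw [this]
    ring

theorem pair_count (r s : ℕ) (q : ℕ) (hq : q = r + 1 + s) :
    2 * ((range q ×ˢ range q).filter fun c => ¬ (r ≤ c.1 + c.2 ∧ c.1 + c.2 < q + r)).card =
      r * (r + 1) + s * (s + 1) := by
  rw [← sum_abs r s, ← hq]
  congr 1
  rw [card_filter, sum_product]
  refine sum_congr rfl fun i hi => ?_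
  rw [mem_range] at hi
  rw [← row_count q r i hi (by omega), card_filter]

theorem zmod_count (q r s : ℕ) [NeZero q] (hq : q = r + 1 + s) :
    2 * (univ.filter fun c : ZMod q × ZMod q =>
      ¬ (r ≤ c.1.val + c.2.val ∧ c.1.val + c.2.val < q + r)).card =
      r * (r + 1) + s * (s + 1) := by
  rw [← pair_count r s q hq]
  congr 1
  refine card_bij (fun c _ => (c.1.val, c.2.val)) ?_ ?_ ?_
  · intro c hc
    simp only [mem_filter, mem_univ, true_and, mem_product, mem_range] at hc ⊢
    exact ⟨⟨ZMod.val_lt _, ZMod.val_lt _⟩, hc⟩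
  · rintro ⟨a, b⟩ _ ⟨a', b'⟩ _ h
    simp only [Prod.mk.injEq] at h
    rw [ZMod.val_injective q h.1, ZMod.val_injective q h.2]
  · rintro ⟨a, b⟩ hc
    simp only [mem_filter, mem_product, mem_range] at hc
    refine ⟨((a : ZMod q), (b : ZMod q)), ?_, ?_⟩
    · simp only [mem_filter, mem_univ, true_and]
      rw [ZMod.val_natCast, ZMod.val_natCast, Nat.mod_eq_of_lt hc.1.1, Nat.mod_eq_of_lt hc.1.2]
      exact hc.2
    · rw [ZMod.val_natCast, ZMod.val_natCast, Nat.mod_eq_of_lt hc.1.1, Nat.mod_eq_of_lt hc.1.2]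

theorem bad_count (q r s : ℕ) [NeZero q] (hq2 : 2 ≤ q) (hr : 2 * r + 1 ≤ q) (hq : q = r + 1 + s)
    (L : Type*) [AddCommGroup L] [Fintype L] [DecidableEq L] :
    2 * (bad (amap q (L := L)) (amap q) (cmap q r)).card =
      (r * (r + 1) + s * (s + 1)) * (q * Fintype.card L) ^ 2 := by
  rw [← zmod_count q r s hq, mul_assoc]
  congr 1
  have h1 : (q * Fintype.card L) ^ 2 =
      (univ : Finset ((ZMod q × L) × (ZMod q × L))).card := by
    rw [card_univ, Fintype.card_prod, Fintype.card_prod, ZMod.card, sq]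
  rw [h1, ← card_product]
  refine card_bij (fun c _ => ((c.1.1, c.2.1), (c.1.2, c.2.2))) ?_ ?_ ?_
  · rintro ⟨x, y⟩ hc
    simp only [bad, mem_filter, mem_univ, true_and, mem_product, and_true] at hc ⊢
    rw [← good_iff q hq2 hr x y]
    exact hc
  · rintro ⟨⟨a, b⟩, ⟨c, d⟩⟩ _ ⟨⟨a', b'⟩, ⟨c', d'⟩⟩ _ h
    simp only [Prod.mk.injEq] at h ⊢
    tauto
  · rintro ⟨⟨a, b⟩, ⟨c, d⟩⟩ hc
    simp only [mem_filter, mem_univ, true_and, mem_product, and_true] at hc
    refine ⟨((a, c), (b, d)), ?_, rfl⟩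
    simp only [bad, mem_filter, mem_univ, true_and]
    rw [ne_eq, good_iff q hq2 hr]
    exact hc

end Pool.Agent.U295.Cay
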